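import Mathlib

/-!
# The ring of adjointable endomorphisms of a real inner product space
-/

set_option autoImplicit false

open scoped InnerProductSpace

namespace Pool.Agent.Helper8.StarReg

section basic

variable {V : Type} [NormedAddCommGroup V] [InnerProductSpace ℝ V]

/-- `T'` is an adjoint of `T`. -/
def IsAdj (T T' : Module.End ℝ V) : Prop := ∀ v w, ⟪T v, w⟫_ℝ = ⟪v, T' w⟫_ℝ

lemma IsAdj.symm {T T' : Module.End ℝ V} (h : IsAdj T T') : IsAdj T' T := by
  intro v w
  rw [real_inner_comm, ← h w v, real_inner_comm]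

lemma IsAdj.unique {T T' T'' : Module.End ℝ V} (h : IsAdj T T') (h' : IsAdj T T'') : T' = T'' := by
  ext w
  refine ext_inner_left ℝ fun v => ?_
  rw [← h v w, ← h' v w]

variable (V) in
/-- The algebra of adjointable endomorphisms of `V`. -/
def AdjRing : Subalgebra ℝ (Module.End ℝ V) where
  carrier := {T | ∃ T', IsAdj T T'}
  mul_mem' := by
    rintro S T ⟨S', hS⟩ ⟨T', hT⟩
    exact ⟨T' * S', fun v w => by rw [Module.End.mul_apply, hS, hT, Module.End.mul_apply]⟩
  add_mem' := by
    rintro S T ⟨S', hS⟩ ⟨T', hT⟩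
    exact ⟨S' + T', fun v w => by
      rw [LinearMap.add_apply, LinearMap.add_apply, inner_add_left, inner_add_right, hS, hT]⟩
  algebraMap_mem' := by
    intro r
    refine ⟨algebraMap ℝ _ r, fun v w => ?_⟩
    simp [Module.algebraMap_end_apply, inner_smul_left, inner_smul_right]

variable (V) in
/-- The type of adjointable endomorphisms of `V`. -/
abbrev Ad : Type := ↥(AdjRing V)

/-- The adjoint. -/
noncomputable def adj (T : Ad V) : Ad V := ⟨T.2.choose, T.1, T.2.choose_spec.symm⟩

lemma adj_isAdj (T : Ad V) : IsAdj T.1 (adj T).1 := T.2.choose_spec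

lemma adj_eq {T S : Ad V} (h : IsAdj T.1 S.1) : adj T = S :=
  Subtype.ext ((adj_isAdj T).unique h)

noncomputable instance : StarRing (Ad V) where
  star := adj
  star_involutive T := adj_eq (adj_isAdj T).symm
  star_mul S T := adj_eq fun v w => by
    show ⟪S.1 (T.1 v), w⟫_ℝ = ⟪v, (adj T).1 ((adj S).1 w)⟫_ℝ
    rw [adj_isAdj S, adj_isAdj T]
  star_add S T := adj_eq fun v w => by
    show ⟪S.1 v + T.1 v, w⟫_ℝ = ⟪v, (adj S).1 w + (adj T).1 w⟫_ℝ
    rw [inner_add_left, inner_add_right, adj_isAdj S, adj_isAdj T]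

lemma star_spec (T : Ad V) (v w : V) : ⟪T.1 v, w⟫_ℝ = ⟪v, (star T).1 w⟫_ℝ := adj_isAdj T v w

lemma star_eq {T S : Ad V} (h : IsAdj T.1 S.1) : star T = S := adj_eq h

lemma mul_apply' (S T : Ad V) (v : V) : (S * T).1 v = S.1 (T.1 v) := rfl
lemma add_apply' (S T : Ad V) (v : V) : (S + T).1 v = S.1 v + T.1 v := rfl
lemma sub_apply' (S T : Ad V) (v : V) : (S - T).1 v = S.1 v - T.1 v := rfl
lemma one_apply' (v : V) : (1 : Ad V).1 v = v := rfl
lemma zero_apply' (v : V) : (0 : Ad V).1 v = 0 := rfl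

lemma Ad_ext {S T : Ad V} (h : ∀ v, S.1 v = T.1 v) : S = T := Subtype.ext (LinearMap.ext h)

/-- properness of the involution -/
lemma proper (T : Ad V) (h : star T * T = 0) : T = 0 := by
  refine Ad_ext fun v => ?_
  have h1 : ⟪T.1 v, T.1 v⟫_ℝ = 0 := by
    rw [star_spec, ← mul_apply', h, zero_apply', inner_zero_right]
  exact inner_self_eq_zero.1 h1

/-- finite rank -/
def Fr (T : Ad V) : Prop := FiniteDimensional ℝ (LinearMap.range T.1)

lemma Fr.of_range_le {T : Ad V} (U : Submodule ℝ V) [FiniteDimensional ℝ U]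
    (h : ∀ v, T.1 v ∈ U) : Fr T := by
  have : LinearMap.range T.1 ≤ U := by rintro _ ⟨v, rfl⟩; exact h v
  exact Submodule.finiteDimensional_of_le this

/-- The orthogonal projection onto a finite dimensional subspace. -/
noncomputable def proj (U : Submodule ℝ V) [FiniteDimensional ℝ U] : Ad V :=
  ⟨U.starProjection.toLinearMap, U.starProjection.toLinearMap, fun v w =>
    Submodule.inner_starProjection_left_eq_right U v w⟩

lemma proj_apply (U : Submodule ℝ V) [FiniteDimensional ℝ U] (v : V) :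
    (proj U).1 v = U.starProjection v := rfl

lemma star_proj (U : Submodule ℝ V) [FiniteDimensional ℝ U] : star (proj U) = proj U :=
  star_eq fun v w => Submodule.inner_starProjection_left_eq_right U v w

lemma proj_mem (U : Submodule ℝ V) [FiniteDimensional ℝ U] (v : V) : (proj U).1 v ∈ U :=
  Submodule.starProjection_apply_mem U v

lemma proj_of_mem (U : Submodule ℝ V) [FiniteDimensional ℝ U] {v : V} (h : v ∈ U) :
    (proj U).1 v = v := Submodule.starProjection_eq_self_iff.2 h

lemma fr_proj (U : Submodule ℝ V) [FiniteDimensional ℝ U] : Fr (proj U) :=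
  Fr.of_range_le U (proj_mem U)

lemma Fr.mul_left {T : Ad V} (h : Fr T) (S : Ad V) : Fr (S * T) := by
  have : FiniteDimensional ℝ (LinearMap.range T.1) := h
  exact Fr.of_range_le ((LinearMap.range T.1).map S.1)
    (fun v => Submodule.mem_map_of_mem ⟨v, rfl⟩)

lemma Fr.mul_right {T : Ad V} (h : Fr T) (S : Ad V) : Fr (T * S) := by
  have : FiniteDimensional ℝ (LinearMap.range T.1) := h
  exact Fr.of_range_le (LinearMap.range T.1) (fun v => ⟨S.1 v, rfl⟩)

lemma Fr.add {S T : Ad V} (hS : Fr S) (hT : Fr T) : Fr (S + T) := by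
  have : FiniteDimensional ℝ (LinearMap.range T.1) := hT
  have : FiniteDimensional ℝ (LinearMap.range S.1) := hS
  exact Fr.of_range_le (LinearMap.range S.1 ⊔ LinearMap.range T.1)
    (fun v => Submodule.add_mem_sup ⟨v, rfl⟩ ⟨v, rfl⟩)

lemma Fr.zero : Fr (0 : Ad V) := Fr.of_range_le ⊥ (fun v => by rw [zero_apply']; exact zero_mem _)

lemma Fr.star {T : Ad V} (h : Fr T) : Fr (star T) := by
  have : FiniteDimensional ℝ (LinearMap.range T.1) := h
  have h1 : proj (LinearMap.range T.1) * T = T := Ad_ext fun v => proj_of_mem _ ⟨v, rfl⟩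
  have h2 : Star.star T = Star.star T * proj (LinearMap.range T.1) := by
    conv_lhs => rw [← h1]
    rw [star_mul, star_proj]
  rw [h2]
  exact (fr_proj _).mul_left _

variable (V) in
/-- The ideal of finite rank adjointable endomorphisms. -/
def J : Ideal (Ad V) where
  carrier := {T | Fr T}
  add_mem' := fun h1 h2 => h1.add h2
  zero_mem' := Fr.zero
  smul_mem' := fun c _ h => h.mul_left c

instance : (J V).IsTwoSided := ⟨fun {_} b h => Fr.mul_right h b⟩

lemma mem_J {T : Ad V} : T ∈ J V ↔ Fr T := Iff.rfl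

/-- Operators between finite dimensional subspaces, extended by zero, are adjointable. -/
lemma exists_ext (U W : Submodule ℝ V) [FiniteDimensional ℝ U] [FiniteDimensional ℝ W]
    (s : U →ₗ[ℝ] W) :
    ∃ S : Ad V, Fr S ∧ ∀ v, S.1 v = (s (U.orthogonalProjectionOnto v) : V) := by
  set f : Module.End ℝ V := W.subtype ∘ₗ s ∘ₗ U.orthogonalProjectionOnto.toLinearMap with hf
  set g : Module.End ℝ V :=
    U.subtype ∘ₗ (LinearMap.adjoint s) ∘ₗ W.orthogonalProjectionOnto.toLinearMap with hg
  have hfg : IsAdj f g := by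
    intro v w
    show ⟪((s (U.orthogonalProjectionOnto v) : W) : V), w⟫_ℝ =
      ⟪v, ((LinearMap.adjoint s (W.orthogonalProjectionOnto w) : U) : V)⟫_ℝ
    rw [← Submodule.inner_orthogonalProjectionOnto_eq_of_mem_left,
      ← Submodule.inner_orthogonalProjectionOnto_eq_of_mem_right, LinearMap.adjoint_inner_right]
  exact ⟨⟨f, g, hfg⟩, Fr.of_range_le W (fun v => (s (U.orthogonalProjectionOnto v)).2), fun v => rfl⟩

/-- finite rank operators are regular within the finite rank operators -/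
lemma fr_regular {T : Ad V} (h : Fr T) : ∃ S : Ad V, Fr S ∧ T = T * S * T := by
  have : FiniteDimensional ℝ (LinearMap.range T.1) := h
  set U := LinearMap.range T.1 with hU
  obtain ⟨s0, hs0⟩ := (LinearMap.rangeRestrict T.1).exists_rightInverse_of_surjective
    (LinearMap.range_rangeRestrict _)
  obtain ⟨S, hS, hSv⟩ := exists_ext U (LinearMap.range s0) (LinearMap.rangeRestrict s0)
  refine ⟨S, hS, Ad_ext fun v => ?_⟩
  rw [mul_apply', mul_apply', hSv]
  have h1 : U.orthogonalProjectionOnto (T.1 v) = ⟨T.1 v, ⟨v, rfl⟩⟩ :=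
    Submodule.orthogonalProjectionOnto_mem_subspace_eq_self (⟨T.1 v, ⟨v, rfl⟩⟩ : U)
  rw [h1]
  have h2 := congrArg Subtype.val (LinearMap.congr_fun hs0 (⟨T.1 v, ⟨v, rfl⟩⟩ : U))
  exact h2.symm

/-- rank one operators -/
noncomputable def rk (u w : V) : Ad V :=
  ⟨(innerₗ V w).smulRight u, (innerₗ V u).smulRight w, fun x y => by
    simp only [LinearMap.smulRight_apply, innerₗ_apply_apply]
    rw [real_inner_smul_left, real_inner_smul_right, real_inner_comm w x]; ring⟩

lemma rk_apply (u w v : V) : (rk u w).1 v = ⟪w, v⟫_ℝ • u := rfl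

lemma fr_rk (u w : V) : Fr (rk u w) :=
  Fr.of_range_le (ℝ ∙ u) (fun v => by
    rw [rk_apply]; exact Submodule.smul_mem _ _ (Submodule.mem_span_singleton_self u))

/-- a finite rank operator is a finite sum of rank one operators -/
lemma fr_eq_sum {T : Ad V} (h : Fr T) :
    ∃ (n : ℕ) (u w : Fin n → V), T = ∑ i, rk (u i) (w i) := by
  have : FiniteDimensional ℝ (LinearMap.range T.1) := h
  set U := LinearMap.range T.1 with hU
  set b := stdOrthonormalBasis ℝ U with hb
  refine ⟨_, fun i => (b i : V), fun i => (star T).1 (b i), Ad_ext fun v => ?_⟩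
  have h1 : (∑ i, rk (b i : V) ((star T).1 (b i))).1 v =
      ∑ i, (rk (b i : V) ((star T).1 (b i))).1 v := by
    rw [AddSubmonoidClass.coe_finsetSum, LinearMap.sum_apply]
  rw [h1]
  have h2 : (⟨T.1 v, ⟨v, rfl⟩⟩ : U) = ∑ i, ⟪b i, (⟨T.1 v, ⟨v, rfl⟩⟩ : U)⟫_ℝ • b i :=
    (b.sum_repr' _).symm
  have h3 := congrArg Subtype.val h2
  rw [AddSubmonoidClass.coe_finsetSum] at h3
  rw [show T.1 v = ((⟨T.1 v, ⟨v, rfl⟩⟩ : U) : V) from rfl, h3]
  refine Finset.sum_congr rfl fun i _ => ?_
  rw [rk_apply]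
  show ⟪((b i : U) : V), T.1 v⟫_ℝ • ((b i : U) : V) = _
  congr 1
  rw [real_inner_comm, star_spec, real_inner_comm]

end basic

end Pool.Agent.Helper8.StarReg
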