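import Pool.Agent.Helper8.StarReg.Neumann

/-!
# Combinations of monomials are Fredholm
-/

set_option autoImplicit false

open Finset
open scoped InnerProductSpace

namespace Pool.Agent.Helper8.StarReg

open VS

/-- the monomials -/
abbrev G : Type := (ℤ →₀ ℤ) × ℤ

/-- weight exponent of a monomial -/
noncomputable def we (g : G) (n : ℤ) : ℤ := w g.1 g.2 n

lemma subexp_we (g : G) : Subexp (fun n => (2 : ℝ) ^ we g n) := subexp_w g.1 g.2

/-- the weighted shift attached to a monomial -/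
noncomputable def op (g : G) : Ad VS := sh g.2 (fun n => (2 : ℝ) ^ we g n) (subexp_we g)

lemma op_E (g : G) {n : ℤ} (hn : 0 ≤ n) : (op g).1 (E n) = (2 : ℝ) ^ we g n • E (n + g.2) :=
  sh_E _ _ _ hn

/-- combination of monomials -/
noncomputable def Pp (c : G →₀ ℝ) : Ad VS := c.sum fun g r => r • op g

lemma coe_sum' {ι : Type*} (s : Finset ι) (f : ι → Ad VS) (v : VS) :
    (∑ i ∈ s, f i).1 v = ∑ i ∈ s, (f i).1 v := by
  rw [AddSubmonoidClass.coe_finsetSum, LinearMap.sum_apply]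

lemma smul_apply' (r : ℝ) (T : Ad VS) (v : VS) : (r • T).1 v = r • T.1 v := rfl

lemma Pp_E (c : G →₀ ℝ) {n : ℤ} (hn : 0 ≤ n) :
    (Pp c).1 (E n) = ∑ g ∈ c.support, (c g * (2 : ℝ) ^ we g n) • E (n + g.2) := by
  unfold Pp Finsupp.sum
  rw [coe_sum']
  refine Finset.sum_congr rfl fun g _ => ?_
  show (c g • op g).1 (E n) = _
  rw [smul_apply', op_E g hn, smul_smul]

theorem right_parametrix (c : G →₀ ℝ) (hc : c ≠ 0) : ∃ A : Ad VS, Fr (Pp c * A - 1) := by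
  classical
  set s := c.support with hs
  have hne : s.Nonempty := Finsupp.support_nonempty_iff.2 hc
  -- constants
  obtain ⟨κ, hκ0, hκ⟩ : ∃ κ : ℝ, 0 ≤ κ ∧ ∀ g ∈ s, ∀ g' ∈ s, |c g' * (c g)⁻¹| ≤ κ := by
    refine ⟨∑ g ∈ s, ∑ g' ∈ s, |c g' * (c g)⁻¹|,
      Finset.sum_nonneg fun _ _ => Finset.sum_nonneg fun _ _ => abs_nonneg _, fun g hg g' hg' => ?_⟩
    refine le_trans ?_ (Finset.single_le_sum (f := fun g => ∑ g' ∈ s, |c g' * (c g)⁻¹|)
      (fun _ _ => Finset.sum_nonneg fun _ _ => abs_nonneg _) hg)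
    exact Finset.single_le_sum (f := fun g' => |c g' * (c g)⁻¹|) (fun _ _ => abs_nonneg _) hg'
  obtain ⟨T, hT⟩ : ∃ T : ℕ, ((s ×ˢ s).card : ℝ) * (κ * (1 / 2) ^ T) ≤ 1 / 4 := by
    have h1 : Filter.Tendsto (fun T : ℕ => ((s ×ˢ s).card : ℝ) * (κ * (1 / 2 : ℝ) ^ T))
        Filter.atTop (nhds (((s ×ˢ s).card : ℝ) * (κ * 0))) :=
      ((tendsto_pow_atTop_nhds_zero_of_lt_one (by norm_num) (by norm_num)).const_mul _).const_mul _
    rw [mul_zero, mul_zero] at h1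
    exact ((h1.eventually (gt_mem_nhds (show (0 : ℝ) < 1 / 4 by norm_num))).exists).imp
      fun _ h => h.le
  -- thresholds
  obtain ⟨N0, hN0⟩ : ∃ N0 : ℤ, ∀ g ∈ s, ∀ g' ∈ s, g ≠ g' → ∀ n, N0 ≤ n →
      (we g' n + (T + 1) ≤ we g n ∧ we g' (n + (g.2 - g'.2)) + (T + 1) ≤ we g n) ∨
      (we g n + (T + 1) ≤ we g' n ∧ we g n + (T + 1) ≤ we g' (n + (g.2 - g'.2))) := by
    have h1 : ∀ p : G × G, ∃ N : ℤ, p.1 ≠ p.2 → ∀ n, N ≤ n →
        (we p.2 n + (T + 1) ≤ we p.1 n ∧ we p.2 (n + (p.1.2 - p.2.2)) + (T + 1) ≤ we p.1 n) ∨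
        (we p.1 n + (T + 1) ≤ we p.2 n ∧ we p.1 n + (T + 1) ≤ we p.2 (n + (p.1.2 - p.2.2))) := by
      intro p
      by_cases h : p.1 = p.2
      · exact ⟨0, fun h' => absurd h h'⟩
      · obtain ⟨N, hN⟩ := key p.1.1 p.2.1 p.1.2 p.2.2 h (T + 1)
        exact ⟨N, fun _ n hn => hN n hn⟩
    choose N hN using h1
    refine ⟨(s ×ˢ s).sup' (hne.product hne) N, fun g hg g' hg' hgg n hn => ?_⟩
    refine hN (g, g') hgg n (le_trans ?_ hn)
    exact Finset.le_sup' N (Finset.mk_mem_product hg hg')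
  obtain ⟨R, hR⟩ : ∃ R : ℕ, ∀ g ∈ s, g.2.natAbs ≤ R :=
    ⟨s.sup (fun g => g.2.natAbs), fun g hg => Finset.le_sup (f := fun g : G => g.2.natAbs) hg⟩
  set N1 : ℤ := max N0 0 + R with hN1
  -- selection of the dominating monomial in each row
  have hsel : ∀ M : ℤ, ∃ g ∈ s, ∀ g' ∈ s, we g' (M - g'.2) ≤ we g (M - g.2) := fun M =>
    Finset.exists_max_image s (fun g => we g (M - g.2)) hne
  choose sel hsel_mem hsel_max using hsel
  have hdom : ∀ M, N1 ≤ M → ∀ g' ∈ s, g' ≠ sel M →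
      we g' (M - (sel M).2) + T ≤ we (sel M) (M - (sel M).2) := by
    intro M hM g' hg' hne'
    have hRs := hR _ (hsel_mem M)
    have h1 := hN0 (sel M) (hsel_mem M) g' hg' (Ne.symm hne') (M - (sel M).2) (by omega)
    have h2 := hsel_max M g' hg'
    rw [show M - (sel M).2 + ((sel M).2 - g'.2) = M - g'.2 by ring] at h1
    rcases h1 with h1 | h1
    · omega
    · omega
  -- approximate inverse
  have hf0 : ∀ g : G, Subexp (fun M => if N1 ≤ M ∧ sel M = g then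
      (c g)⁻¹ * (2 : ℝ) ^ (-we g (M - g.2)) else 0) := by
    intro g
    refine (((subexp_w_neg g.1 g.2).shift (-g.2)).const_mul (c g)⁻¹).congr fun M => ?_
    split_ifs
    · exact le_rfl
    · rw [abs_zero]; exact abs_nonneg _
  set G0 : Ad VS := ∑ g ∈ s, sh (-g.2) _ (hf0 g) with hG0
  have hfq : ∀ p : G × G, ∃ ε : ℝ, ∀ M, |if N1 ≤ M ∧ sel M = p.1 ∧ p.1 ∈ s ∧ p.2 ∈ s ∧ p.2 ≠ p.1 then
      c p.2 * (c p.1)⁻¹ * (2 : ℝ) ^ (we p.2 (M - p.1.2) - we p.1 (M - p.1.2)) else 0| ≤ ε ∧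
      ε ≤ κ * (1 / 2) ^ T := by
    intro p
    refine ⟨κ * (1 / 2) ^ T, fun M => ⟨?_, le_rfl⟩⟩
    split_ifs with h
    · obtain ⟨h1, h2, h3, h4, h5⟩ := h
      have h6 := hdom M h1 p.2 h4 (by rw [h2]; exact h5)
      rw [h2] at h6
      rw [abs_mul]
      refine mul_le_mul (hκ _ h3 _ h4) ?_ (abs_nonneg _) hκ0
      rw [abs_of_nonneg (by positivity)]
      have h7 : (2 : ℝ) ^ (we p.2 (M - p.1.2) - we p.1 (M - p.1.2)) ≤ 2 ^ (-(T : ℤ)) :=
        zpow_le_zpow_right₀ (by norm_num) (by omega)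
      refine h7.trans (le_of_eq ?_)
      rw [zpow_neg, zpow_natCast, div_pow, one_pow, one_div]
    · rw [abs_zero]; positivity
  have hfq' : ∀ p : G × G, Subexp (fun M => if N1 ≤ M ∧ sel M = p.1 ∧ p.1 ∈ s ∧ p.2 ∈ s ∧ p.2 ≠ p.1
      then c p.2 * (c p.1)⁻¹ * (2 : ℝ) ^ (we p.2 (M - p.1.2) - we p.1 (M - p.1.2)) else 0) := by
    intro p
    obtain ⟨ε, hε⟩ := hfq p
    exact Subexp.of_bdd ε fun M => (hε M).1
  have hbd : ∀ p ∈ s ×ˢ s, ∀ M, |if N1 ≤ M ∧ sel M = p.1 ∧ p.1 ∈ s ∧ p.2 ∈ s ∧ p.2 ≠ p.1 then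
      c p.2 * (c p.1)⁻¹ * (2 : ℝ) ^ (we p.2 (M - p.1.2) - we p.1 (M - p.1.2)) else 0| ≤
      κ * (1 / 2) ^ T := by
    intro p _ M
    obtain ⟨ε, hε⟩ := hfq p
    exact (hε M).1.trans (hε M).2
  set Q : Ad VS := ∑ p ∈ s ×ˢ s, sh (p.2.2 - p.1.2) _ (hfq' p) with hQ
  have hsm : Small Q := small_sh_sum (s ×ˢ s) (fun p => p.2.2 - p.1.2) _ hfq' _ hbd hT
  have hsm' : Small (star Q) := small_star_sh_sum (s ×ˢ s) (fun p => p.2.2 - p.1.2) _ hfq' _ hbd hT
  obtain ⟨A, hA⟩ := inv_of_small hsm hsm'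
  have hmain : Pp c * G0 = 1 + Q - cut N1 := by
    refine Ad_ext_E fun M hM => ?_
    rw [mul_apply', sub_apply', add_apply', one_apply', cut_E N1 hM, hG0, hQ, coe_sum', coe_sum']
    have e1 : ∀ g ∈ s, (sh (-g.2) _ (hf0 g)).1 (E M) =
        (if N1 ≤ M ∧ sel M = g then (c g)⁻¹ * (2 : ℝ) ^ (-we g (M - g.2)) else 0) • E (M + -g.2) :=
      fun g _ => sh_E _ _ _ hM
    have e2 : ∀ p ∈ s ×ˢ s, (sh (p.2.2 - p.1.2) _ (hfq' p)).1 (E M) =
        (if N1 ≤ M ∧ sel M = p.1 ∧ p.1 ∈ s ∧ p.2 ∈ s ∧ p.2 ≠ p.1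
      then c p.2 * (c p.1)⁻¹ * (2 : ℝ) ^ (we p.2 (M - p.1.2) - we p.1 (M - p.1.2)) else 0) •
          E (M + (p.2.2 - p.1.2)) := fun p _ => sh_E _ _ _ hM
    rw [Finset.sum_congr rfl e1, Finset.sum_congr rfl e2]
    by_cases h : N1 ≤ M
    · have hg := hsel_mem M
      have hRs := hR _ hg
      set g := sel M with hgdef
      rw [if_neg (by omega), sub_zero]
      -- left side
      rw [Finset.sum_eq_single g (fun b _ hb => by rw [if_neg (fun h => hb h.2.symm), zero_smul])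
        (fun h => absurd hg h), if_pos ⟨h, rfl⟩, map_smul, Pp_E c (by omega), Finset.smul_sum]
      -- right side
      rw [Finset.sum_product]
      rw [Finset.sum_eq_single g (fun b _ hb => Finset.sum_eq_zero fun b' _ => by
        rw [if_neg (fun h => hb h.2.1.symm), zero_smul]) (fun h => absurd hg h)]
      rw [← Finset.add_sum_erase _ _ hg, ← Finset.add_sum_erase _ _ hg]
      have e3 : (if N1 ≤ M ∧ g = g ∧ g ∈ s ∧ g ∈ s ∧ g ≠ g then c g * (c g)⁻¹ *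
          (2 : ℝ) ^ (we g (M - g.2) - we g (M - g.2)) else 0) = 0 := if_neg (by tauto)
      simp only at e3 ⊢
      rw [e3, zero_smul, zero_add]
      congr 1
      · rw [smul_smul]
        have hcg : c g ≠ 0 := Finsupp.mem_support_iff.1 hg
        have h2 : (2 : ℝ) ^ (-we g (M - g.2)) * 2 ^ we g (M + -g.2) = 1 := by
          rw [← sub_eq_add_neg, ← zpow_add₀ (by norm_num)]; simp
        have h3 : (c g)⁻¹ * (2 : ℝ) ^ (-we g (M - g.2)) * (c g * 2 ^ we g (M + -g.2)) = 1 := by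
          calc _ = ((c g)⁻¹ * c g) * ((2 : ℝ) ^ (-we g (M - g.2)) * 2 ^ we g (M + -g.2)) := by ring
            _ = 1 := by rw [h2, inv_mul_cancel₀ hcg, one_mul]
        rw [h3, one_smul]
        congr 1; ring
      · refine Finset.sum_congr rfl fun g' hg' => ?_
        rw [Finset.mem_erase] at hg'
        rw [if_pos ⟨h, trivial, hg, hg'.2, hg'.1⟩, smul_smul]
        have h2 : (2 : ℝ) ^ (we g' (M - g.2) - we g (M - g.2)) =
            (2 : ℝ) ^ (-we g (M - g.2)) * 2 ^ we g' (M + -g.2) := by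
          rw [← sub_eq_add_neg M, ← zpow_add₀ (by norm_num)]; congr 1; ring
        rw [h2]
        congr 1
        · ring
        · congr 1; ring
    · rw [if_pos (by omega), Finset.sum_eq_zero, Finset.sum_eq_zero, map_zero, add_zero, sub_self]
      · intro p _
        rw [if_neg (fun h' => h h'.1), zero_smul]
      · intro g _
        rw [if_neg (fun h' => h h'.1), zero_smul]
  refine ⟨G0 * A, ?_⟩
  have h1 : Pp c * (G0 * A) - 1 = -(cut N1 * A) := by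
    rw [← mul_assoc, hmain, sub_mul, hA]; abel
  rw [h1]
  exact ((fr_cut N1).mul_right A).neg

end Pool.Agent.Helper8.StarReg
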