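import Pool.Agent.Helper8.StarReg.Weights

/-!
# Subexponential growth
-/

set_option autoImplicit false

open Finset

namespace Pool.Agent.Helper8.StarReg

/-- subexponential growth on the integers -/
def Subexp (f : ℤ → ℝ) : Prop := ∀ σ : ℝ, 1 < σ → ∃ C, ∀ n : ℤ, |f n| ≤ C * σ ^ n.natAbs

lemma Subexp.of_bdd {f : ℤ → ℝ} (B : ℝ) (h : ∀ n : ℤ, |f n| ≤ B) : Subexp f := by
  intro σ hσ
  refine ⟨B, fun n => (h n).trans ?_⟩
  have hB : 0 ≤ B := (abs_nonneg _).trans (h n)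
  have : (1 : ℝ) ≤ σ ^ n.natAbs := one_le_pow₀ hσ.le
  nlinarith

lemma Subexp.mul {f g : ℤ → ℝ} (hf : Subexp f) (hg : Subexp g) : Subexp (fun n => f n * g n) := by
  intro σ hσ
  have hs : 1 < Real.sqrt σ := by
    rw [Real.lt_sqrt (by norm_num)]; simpa using hσ
  obtain ⟨C, hC⟩ := hf _ hs
  obtain ⟨D, hD⟩ := hg _ hs
  refine ⟨C * D, fun n => ?_⟩
  have h1 : σ ^ n.natAbs = Real.sqrt σ ^ n.natAbs * Real.sqrt σ ^ n.natAbs := by
    rw [← mul_pow, Real.mul_self_sqrt (by linarith)]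
  rw [abs_mul, h1]
  have h2 := hC n
  have h3 := hD n
  calc |f n| * |g n| ≤ (C * Real.sqrt σ ^ n.natAbs) * (D * Real.sqrt σ ^ n.natAbs) :=
        mul_le_mul h2 h3 (abs_nonneg _) ((abs_nonneg _).trans h2)
    _ = _ := by ring

lemma Subexp.congr {f g : ℤ → ℝ} (hf : Subexp f) (h : ∀ n : ℤ, |g n| ≤ |f n|) :
    Subexp g := by
  intro σ hσ
  obtain ⟨C, hC⟩ := hf _ hσ
  exact ⟨C, fun n => (h n).trans (hC n)⟩

lemma Subexp.const_mul {f : ℤ → ℝ} (hf : Subexp f) (c : ℝ) : Subexp (fun n => c * f n) :=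
  (Subexp.of_bdd (f := fun _ => c) |c| (fun _ => le_rfl)).mul hf

lemma Subexp.pow {f : ℤ → ℝ} (hf : Subexp f) (k : ℕ) : Subexp (fun n => f n ^ k) := by
  induction k with
  | zero => exact Subexp.of_bdd 1 (by simp)
  | succ k ih => simp only [pow_succ]; exact ih.mul hf

lemma Subexp.shift {f : ℤ → ℝ} (hf : Subexp f) (j : ℤ) : Subexp (fun n => f (n + j)) := by
  intro σ hσ
  obtain ⟨C, hC⟩ := hf _ hσ
  refine ⟨C * σ ^ j.natAbs, fun n => (hC (n + j)).trans ?_⟩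
  have hC0 : 0 ≤ C := by
    have := (abs_nonneg _).trans (hC 0)
    simpa using this
  rw [mul_assoc, ← pow_add]
  refine mul_le_mul_of_nonneg_left ?_ hC0
  exact pow_le_pow_right₀ hσ.le (by omega)

lemma subexp_lin (D : ℕ) : Subexp (fun n => (n.natAbs : ℝ) + D) := by
  intro σ hσ
  have h1 : ∀ n : ℕ, 1 + (n : ℝ) * (σ - 1) ≤ σ ^ n := by
    intro n
    have := one_add_mul_le_pow (a := σ - 1) (by linarith) n
    simpa using this
  have hs : 0 < σ - 1 := by linarith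
  refine ⟨D + 1 / (σ - 1), fun n => ?_⟩
  show |(n.natAbs : ℝ) + D| ≤ (D + 1 / (σ - 1)) * σ ^ n.natAbs
  generalize n.natAbs = n
  have h2 := h1 n
  have h3 : (0 : ℝ) ≤ n := by positivity
  have h4 : (0 : ℝ) ≤ (D : ℝ) := by positivity
  rw [abs_of_nonneg (by positivity)]
  have h5 : (n : ℝ) ≤ 1 / (σ - 1) * σ ^ n := by
    rw [div_mul_eq_mul_div, le_div_iff₀ hs]; linarith
  have h6 : (1 : ℝ) ≤ σ ^ n := one_le_pow₀ hσ.le
  have h7 : (D : ℝ) ≤ D * σ ^ n := by nlinarith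
  linarith [add_mul (D : ℝ) (1 / (σ - 1)) (σ ^ n)]

lemma two_zpow_a_le (b : ℤ) : (2 : ℝ) ^ a b ≤ (b.toNat + 1) ^ 2 := by
  have h1 : (2 : ℝ) ^ a b ≤ 2 ^ (2 * Nat.log 2 b.toNat : ℕ) := by
    have := zpow_le_zpow_right₀ (a := (2 : ℝ)) (by norm_num) (a_le b)
    refine this.trans (le_of_eq ?_)
    rw [← zpow_natCast]; push_cast; rfl
  refine h1.trans ?_
  rw [mul_comm, pow_mul]
  refine pow_le_pow_left₀ (by positivity) ?_ 2
  rcases Nat.eq_zero_or_pos b.toNat with h | h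
  · rw [h]; simp
  · have := Nat.pow_log_le_self 2 h.ne'
    have h2 : ((2 ^ Nat.log 2 b.toNat : ℕ) : ℝ) ≤ b.toNat := by exact_mod_cast this
    push_cast at h2
    linarith

lemma subexp_a : Subexp (fun n => (2 : ℝ) ^ a n) := by
  refine ((subexp_lin 1).pow 2).congr fun n => ?_
  rw [abs_of_nonneg (by positivity), abs_of_nonneg (by positivity)]
  refine (two_zpow_a_le _).trans ?_
  refine pow_le_pow_left₀ (by positivity) ?_ 2
  have h1 : n.toNat ≤ n.natAbs := by omega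
  have h2 : (n.toNat : ℝ) ≤ n.natAbs := by exact_mod_cast h1
  rw [Nat.cast_one]
  linarith

lemma subexp_W (η : ℤ →₀ ℤ) : Subexp (fun n => (2 : ℝ) ^ W η n) := by
  induction η using Finsupp.induction_linear with
  | zero => exact Subexp.of_bdd 1 (by simp [W])
  | add f g hf hg =>
    refine (hf.mul hg).congr fun n => le_of_eq ?_
    rw [W_add, zpow_add₀ (by norm_num)]
  | single d k =>
    rcases le_total 0 k with hk | hk
    · obtain ⟨k, rfl⟩ := Int.eq_ofNat_of_zero_le hk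
      refine ((subexp_a.shift d).pow k).congr fun n => le_of_eq ?_
      rw [W_single, mul_comm, zpow_mul, zpow_natCast]
    · refine Subexp.of_bdd 1 fun n => ?_
      rw [abs_of_nonneg (by positivity), W_single]
      have h1 : k * a (n + d) ≤ 0 := by nlinarith [a_nonneg (n + d)]
      exact zpow_le_one_of_nonpos₀ (by norm_num) h1

lemma w_eq_W (μ : ℤ →₀ ℤ) (i n : ℤ) : w μ i n = W (iv 0 i + (μ + μ)) n := by
  rw [W_add, W_add, W_iv, w]; ring_nf

lemma subexp_w (μ : ℤ →₀ ℤ) (i : ℤ) : Subexp (fun n => (2 : ℝ) ^ w μ i n) := by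
  simp only [w_eq_W]; exact subexp_W _

lemma subexp_w_neg (μ : ℤ →₀ ℤ) (i : ℤ) : Subexp (fun n => (2 : ℝ) ^ (-w μ i n)) := by
  have h : ∀ n, -w μ i n = W (-(iv 0 i + (μ + μ))) n := by
    intro n; rw [W_neg, w_eq_W]
  simp only [h]; exact subexp_W _

end Pool.Agent.Helper8.StarReg
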