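import Pool.Agent.Helper8.StarReg.SeqSpace

/-!
# Small operators and the Neumann series
-/

set_option autoImplicit false

open Finset
open scoped InnerProductSpace

namespace Pool.Agent.Helper8.StarReg

open VS

/-- small operators -/
def Small (Q : Ad VS) : Prop := ∃ ρ0 : ℝ, 0 < ρ0 ∧ ρ0 < 1 ∧ ∀ ρ, ρ0 ≤ ρ → ρ < 1 →
  ∀ (C : ℝ) (v : VS), Bd C ρ v.1 → Bd (C / 2) ρ (Q.1 v).1

lemma exists_bd (v : VS) (ρ0 : ℝ) (h1 : ρ0 < 1) :
    ∃ C ρ, ρ0 ≤ ρ ∧ ρ < 1 ∧ Bd C ρ v.1 := by
  obtain ⟨_, C, ρ, h, h', hv⟩ := v.2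
  exact ⟨C, max ρ ρ0, le_max_right _ _, max_lt h' h1, hv.mono h (le_max_left _ _)⟩

lemma eq_zero_of_bd {v : VS} {C ρ : ℝ} (h : ∀ k : ℕ, Bd (C / 2 ^ k) ρ v.1) : v = 0 := by
  refine VS.ext fun n => ?_
  rw [zero_coe]
  rcases lt_or_ge n 0 with hn | hn
  · exact neg_coe v hn
  · have h1 : Filter.Tendsto (fun k : ℕ => C / 2 ^ k * ρ ^ n) Filter.atTop (nhds (0 * ρ ^ n)) := by
      refine Filter.Tendsto.mul_const _ ?_
      have := (tendsto_pow_atTop_nhds_zero_of_lt_one (r := (1 / 2 : ℝ)) (by norm_num)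
        (by norm_num)).const_mul C
      rw [mul_zero] at this
      refine this.congr fun k => ?_
      rw [div_pow, one_pow]; ring
    rw [zero_mul] at h1
    have h2 : |v.1 n| ≤ 0 := ge_of_tendsto' h1 fun k => h k n hn
    exact abs_nonpos_iff.1 h2

lemma Bd.congr_const {C D ρ : ℝ} {v : ℤ → ℝ} (h : Bd C ρ v) (e : C = D) : Bd D ρ v := e ▸ h

lemma small_injective {Q : Ad VS} (hQ : Small Q) : Function.Injective (1 + Q).1 := by
  obtain ⟨ρ0, h0, h1, h⟩ := hQ
  rw [injective_iff_map_eq_zero]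
  intro v hv
  obtain ⟨C, ρ, hρ, hρ1, hb⟩ := exists_bd v ρ0 h1
  refine eq_zero_of_bd (C := C) (ρ := ρ) fun k => ?_
  induction k with
  | zero => simpa using hb
  | succ k ih =>
    have h2 := h ρ hρ hρ1 _ v ih
    intro n hn
    have h3 : v.1 n = -(Q.1 v).1 n := by
      have h4 : v + Q.1 v = 0 := hv
      have h5 := congrArg (fun x : VS => x.1 n) h4
      have h6 : v.1 n + (Q.1 v).1 n = 0 := h5
      linarith
    rw [h3, abs_neg]
    refine (h2 n hn).trans (le_of_eq ?_)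
    rw [pow_succ]; ring

lemma small_surjective {Q : Ad VS} (hQ : Small Q) : Function.Surjective (1 + Q).1 := by
  obtain ⟨ρ0, h0, h1, h⟩ := hQ
  intro w
  obtain ⟨C, ρ, hρ, hρ1, hb⟩ := exists_bd w ρ0 h1
  have hρ0 : 0 < ρ := lt_of_lt_of_le h0 hρ
  have hC : 0 ≤ C := hb.nonneg
  set x : ℕ → VS := fun k => (fun y : VS => -(Q.1 y))^[k] w with hx
  have hx0 : x 0 = w := rfl
  have hxs : ∀ k, x (k + 1) = -(Q.1 (x k)) := fun k => by
    simp only [hx]; rw [Function.iterate_succ_apply']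
  have hxb : ∀ k, Bd (C / 2 ^ k) ρ (x k).1 := by
    intro k
    induction k with
    | zero => simpa [hx0] using hb
    | succ k ih =>
      have h2 := h ρ hρ hρ1 _ (x k) ih
      intro n hn
      rw [hxs]
      have h3 : (-(Q.1 (x k))).1 n = -((Q.1 (x k)).1 n) := rfl
      rw [h3, abs_neg]
      refine (h2 n hn).trans (le_of_eq ?_)
      rw [pow_succ]; ring
  have hgeo : HasSum (fun k : ℕ => (1 / 2 : ℝ) ^ k) 2 := hasSum_geometric_two
  have hsum : ∀ n : ℤ, Summable (fun k => (x k).1 n) := by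
    intro n
    rcases lt_or_ge n 0 with hn | hn
    · have : (fun k => (x k).1 n) = fun _ => 0 := funext fun k => neg_coe (x k) hn
      rw [this]; exact summable_zero
    · refine Summable.of_norm_bounded (g := fun k => C * ρ ^ n * (1 / 2) ^ k)
        (hgeo.summable.mul_left _) fun k => ?_
      rw [Real.norm_eq_abs]
      refine (hxb k n hn).trans (le_of_eq ?_)
      rw [div_pow, one_pow]; ring
  -- tails
  have htail : ∀ (K : ℕ) (n : ℤ), 0 ≤ n → |∑' k, (x (k + K)).1 n| ≤ 2 * (C / 2 ^ K) * ρ ^ n := by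
    intro K n hn
    have hg : HasSum (fun k : ℕ => C / 2 ^ K * ρ ^ n * (1 / 2 : ℝ) ^ k) (C / 2 ^ K * ρ ^ n * 2) :=
      hgeo.mul_left _
    have := tsum_of_norm_bounded hg (f := fun k => (x (k + K)).1 n) (fun k => by
      rw [Real.norm_eq_abs]
      refine (hxb (k + K) n hn).trans (le_of_eq ?_)
      rw [div_pow, one_pow, pow_add]; field_simp)
    rw [Real.norm_eq_abs] at this
    linarith
  set v : VS := ⟨fun n => ∑' k, (x k).1 n, by
    refine ⟨fun n hn => ?_, 2 * C, ρ, hρ0, hρ1, fun n hn => ?_⟩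
    · have : (fun k => (x k).1 n) = fun _ => 0 := funext fun k => neg_coe (x k) hn
      show ∑' k, (x k).1 n = 0
      rw [this, tsum_zero]
    · have := htail 0 n hn
      simpa using this⟩ with hv
  have hvn : ∀ n, v.1 n = ∑' k, (x k).1 n := fun n => rfl
  refine ⟨v, ?_⟩
  rw [← sub_eq_zero]
  -- partial sums
  set s : ℕ → VS := fun K => ∑ k ∈ range K, x k with hs
  have hs_coe : ∀ K n, (s K).1 n = ∑ k ∈ range K, (x k).1 n := by
    intro K n
    induction K with
    | zero => simp [hs, zero_coe]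
    | succ K ih =>
      rw [Finset.sum_range_succ, ← ih]
      simp only [hs]
      rw [Finset.sum_range_succ, add_coe]
  have hsQ : ∀ K, (1 + Q).1 (s K) = w - x K := by
    intro K
    have e : ∀ y : VS, (1 + Q).1 y = y + Q.1 y := fun y => rfl
    induction K with
    | zero => rw [e]; simp [hs, hx0]
    | succ K ih =>
      have e2 : s (K + 1) = s K + x K := by simp only [hs]; rw [Finset.sum_range_succ]
      rw [e2, map_add, ih, e, hxs]
      abel
  refine eq_zero_of_bd (C := 4 * C) (ρ := ρ) fun K => ?_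
  have hd : Bd (2 * (C / 2 ^ K)) ρ (v - s K).1 := by
    intro n hn
    have h2 := (hsum n).sum_add_tsum_nat_add K
    have h3 : (v - s K).1 n = ∑' k, (x (k + K)).1 n := by
      rw [sub_coe, hs_coe, hvn, ← h2]; ring
    rw [h3]
    exact htail K n hn
  have hd2 := h ρ hρ hρ1 _ _ hd
  have hd3 := hxb K
  intro n hn
  have e : ((1 + Q).1 v - w).1 n = (v - s K).1 n + (Q.1 (v - s K)).1 n - (x K).1 n := by
    have e1 : (1 + Q).1 v - w = (v - s K) + Q.1 (v - s K) - x K := by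
      have e2 : (1 + Q).1 v = (1 + Q).1 (v - s K) + (1 + Q).1 (s K) := by
        rw [← map_add, sub_add_cancel]
      rw [e2, hsQ]
      have e3 : (1 + Q).1 (v - s K) = (v - s K) + Q.1 (v - s K) := rfl
      rw [e3]; abel
    rw [e1, sub_coe, add_coe]
  rw [e]
  have b1 := hd n hn
  have b2 := hd2 n hn
  have b3 := hd3 n hn
  calc |(v - s K).1 n + (Q.1 (v - s K)).1 n - (x K).1 n|
      ≤ |(v - s K).1 n + (Q.1 (v - s K)).1 n| + |(x K).1 n| := abs_sub _ _
    _ ≤ |(v - s K).1 n| + |(Q.1 (v - s K)).1 n| + |(x K).1 n| := by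
        gcongr; exact abs_add_le _ _
    _ ≤ 2 * (C / 2 ^ K) * ρ ^ n + 2 * (C / 2 ^ K) / 2 * ρ ^ n + C / 2 ^ K * ρ ^ n := by
        gcongr
    _ = 4 * C / 2 ^ K * ρ ^ n := by ring

/-- `1 + Q` is invertible among the adjointable operators. -/
theorem inv_of_small {Q : Ad VS} (hQ : Small Q) (hQ' : Small (star Q)) :
    ∃ A : Ad VS, (1 + Q) * A = 1 := by
  set e1 := LinearEquiv.ofBijective (1 + Q).1 ⟨small_injective hQ, small_surjective hQ⟩ with he1
  set e2 := LinearEquiv.ofBijective (1 + star Q).1 ⟨small_injective hQ', small_surjective hQ'⟩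
    with he2
  have hstar : star (1 + Q) = 1 + star Q := by rw [star_add, star_one]
  have h1 : ∀ v, (1 + Q).1 (e1.symm v) = v := fun v => e1.apply_symm_apply v
  have h2 : ∀ v, (1 + star Q).1 (e2.symm v) = v := fun v => e2.apply_symm_apply v
  have hadj : IsAdj (e1.symm : VS →ₗ[ℝ] VS) (e2.symm : VS →ₗ[ℝ] VS) := by
    intro v w
    show ⟪e1.symm v, w⟫_ℝ = ⟪v, e2.symm w⟫_ℝ
    conv_lhs => rw [← h2 w]
    conv_rhs => rw [← h1 v]
    rw [← hstar, star_spec]
  exact ⟨⟨_, _, hadj⟩, Ad_ext fun v => h1 v⟩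

lemma small_sh_sum {ι : Type*} (s : Finset ι) (i : ι → ℤ) (f : ι → ℤ → ℝ) (hf : ∀ x, Subexp (f x))
    (ε : ℝ) (hε : ∀ x ∈ s, ∀ n, |f x n| ≤ ε) (hs : s.card * ε ≤ 1 / 4) :
    Small (∑ x ∈ s, sh (i x) (f x) (hf x)) := by
  classical
  obtain ⟨R, hR⟩ : ∃ R : ℕ, ∀ x ∈ s, (i x).natAbs ≤ R :=
    ⟨s.sup (fun x => (i x).natAbs), fun x hx => Finset.le_sup (f := fun x => (i x).natAbs) hx⟩
  set t : ℝ := 1 / (2 * (R + 1)) with ht
  have ht0 : 0 < t := by positivity
  have ht1 : t ≤ 1 / 2 := by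
    rw [ht]
    apply one_div_le_one_div_of_le (by norm_num)
    have : (0 : ℝ) ≤ R := by positivity
    linarith
  have hpow : 1 / 2 ≤ (1 - t) ^ R := by
    have h1 := one_add_mul_le_pow (a := -t) (by linarith) R
    have h2 : (R : ℝ) * t ≤ 1 / 2 := by
      rw [ht, mul_one_div, div_le_div_iff₀ (by positivity) (by norm_num)]
      linarith
    have h3 : (1 : ℝ) + -t = 1 - t := by ring
    rw [h3] at h1
    linarith
  refine ⟨1 - t, by linarith, by linarith, fun ρ hρ hρ1 C v hv => ?_⟩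
  have hρ0 : 0 < ρ := by linarith
  have hC := hv.nonneg
  have hsh : ∀ x ∈ s, Bd (2 * ε * C) ρ ((sh (i x) (f x) (hf x)).1 v).1 := by
    intro x hx m hm
    have hε0 : 0 ≤ ε := (abs_nonneg _).trans (hε x hx 0)
    rw [sh_coe, if_pos hm]
    rcases lt_or_ge (m - i x) 0 with h | h
    · rw [neg_coe v h, mul_zero, abs_zero]; positivity
    · rw [abs_mul]
      have e1 := hv (m - i x) h
      have e2 := hε x hx (m - i x)
      have e3 : ρ ^ (-(i x)) ≤ 2 := by
        have e4 : ρ ^ (-(i x)) ≤ ρ ^ (-(R : ℤ)) := by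
          apply zpow_le_zpow_right_of_le_one₀ hρ0 hρ1.le
          have := hR x hx
          omega
        refine e4.trans ?_
        rw [zpow_neg, zpow_natCast]
        have e5 : 1 / 2 ≤ ρ ^ R := hpow.trans (pow_le_pow_left₀ (by linarith) hρ R)
        rw [inv_le_comm₀ (by positivity) (by norm_num)]
        linarith
      calc |f x (m - i x)| * |v.1 (m - i x)| ≤ ε * (C * ρ ^ (m - i x)) :=
            mul_le_mul e2 e1 (abs_nonneg _) hε0
        _ = ε * C * ρ ^ m * ρ ^ (-(i x)) := by rw [sub_eq_add_neg, zpow_add₀ hρ0.ne']; ring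
        _ ≤ ε * C * ρ ^ m * 2 := mul_le_mul_of_nonneg_left e3 (by positivity)
        _ = _ := by ring
  have key : ∀ u : Finset ι, u ⊆ s →
      Bd (u.card * (2 * ε * C)) ρ ((∑ x ∈ u, sh (i x) (f x) (hf x)).1 v).1 := by
    intro u
    induction u using Finset.induction_on with
    | empty =>
      intro _ n _
      rw [Finset.sum_empty, zero_apply', zero_coe]; simp
    | insert x u hx ih =>
      intro hsub
      rw [Finset.sum_insert hx, Finset.card_insert_of_notMem hx]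
      have h1 := (hsh x (hsub (mem_insert_self x u))).add
        (ih (fun y hy => hsub (mem_insert_of_mem hy)))
      refine Bd.congr_const h1 ?_
      push_cast; ring
  have h1 := key s (Finset.Subset.refl s)
  intro n hn
  refine (h1 n hn).trans ?_
  have : (0 : ℝ) ≤ ρ ^ n := by positivity
  have h2 : (s.card : ℝ) * (2 * ε * C) ≤ C / 2 := by nlinarith
  exact mul_le_mul_of_nonneg_right h2 this

lemma small_star_sh_sum {ι : Type*} (s : Finset ι) (i : ι → ℤ) (f : ι → ℤ → ℝ)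
    (hf : ∀ x, Subexp (f x)) (ε : ℝ) (hε : ∀ x ∈ s, ∀ n, |f x n| ≤ ε)
    (hs : s.card * ε ≤ 1 / 4) :
    Small (star (∑ x ∈ s, sh (i x) (f x) (hf x))) := by
  rw [star_sum]
  simp only [star_sh]
  exact small_sh_sum s (fun x => -(i x)) (fun x m => f x (m + -(i x)))
    (fun x => (hf x).shift _) ε (fun x hx n => hε x hx _) hs

end Pool.Agent.Helper8.StarReg
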