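import Pool.Agent.Helper8.StarReg.Fredholm

/-!
# The Ore condition and the division ring of fractions
-/

set_option autoImplicit false

open Finset
open scoped InnerProductSpace

namespace Pool.Agent.Helper8.StarReg

section fractions

variable {Q : Type*} [Ring Q] [Nontrivial Q]

/-- The left fractions `p⁻¹ q` with `p, q` in a left Ore domain `B` whose nonzero elements are
units of `Q`. -/
def fracSub (B : Subring Q) (hU : ∀ b ∈ B, b ≠ 0 → IsUnit b)
    (hO : ∀ p ∈ B, ∀ q ∈ B, p ≠ 0 → ∃ b ∈ B, ∃ c ∈ B, b ≠ 0 ∧ b * q = c * p) : Subring Q where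
  carrier := {e | ∃ p ∈ B, p ≠ 0 ∧ p * e ∈ B}
  mul_mem' := by
    rintro e1 e2 ⟨p1, hp1, hp1', h1⟩ ⟨p2, hp2, hp2', h2⟩
    obtain ⟨b, hb, c, hc, hb', hbc⟩ := hO p2 hp2 (p1 * e1) h1 hp2'
    refine ⟨b * p1, B.mul_mem hb hp1, ((hU b hb hb').mul (hU p1 hp1 hp1')).ne_zero, ?_⟩
    have : b * p1 * (e1 * e2) = c * (p2 * e2) := by
      calc b * p1 * (e1 * e2) = (b * (p1 * e1)) * e2 := by noncomm_ring
        _ = c * (p2 * e2) := by rw [hbc]; noncomm_ring
    rw [this]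
    exact B.mul_mem hc h2
  one_mem' := ⟨1, B.one_mem, one_ne_zero, by rw [mul_one]; exact B.one_mem⟩
  add_mem' := by
    rintro e1 e2 ⟨p1, hp1, hp1', h1⟩ ⟨p2, hp2, hp2', h2⟩
    obtain ⟨b, hb, c, hc, hb', hbc⟩ := hO p1 hp1 p2 hp2 hp1'
    refine ⟨b * p2, B.mul_mem hb hp2, ((hU b hb hb').mul (hU p2 hp2 hp2')).ne_zero, ?_⟩
    have : b * p2 * (e1 + e2) = c * (p1 * e1) + b * (p2 * e2) := by
      calc b * p2 * (e1 + e2) = (b * p2) * e1 + b * (p2 * e2) := by noncomm_ring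
        _ = c * (p1 * e1) + b * (p2 * e2) := by rw [hbc]; noncomm_ring
    rw [this]
    exact B.add_mem (B.mul_mem hc h1) (B.mul_mem hb h2)
  zero_mem' := ⟨1, B.one_mem, one_ne_zero, by rw [mul_zero]; exact B.zero_mem⟩
  neg_mem' := by
    rintro e ⟨p, hp, hp', h⟩
    exact ⟨p, hp, hp', by rw [mul_neg]; exact B.neg_mem h⟩

lemma mem_fracSub {B : Subring Q} {hU : ∀ b ∈ B, b ≠ 0 → IsUnit b}
    {hO : ∀ p ∈ B, ∀ q ∈ B, p ≠ 0 → ∃ b ∈ B, ∃ c ∈ B, b ≠ 0 ∧ b * q = c * p} {e : Q} :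
    e ∈ fracSub B hU hO ↔ ∃ p ∈ B, p ≠ 0 ∧ p * e ∈ B := Iff.rfl

lemma fracSub_inv {B : Subring Q} {hU : ∀ b ∈ B, b ≠ 0 → IsUnit b}
    {hO : ∀ p ∈ B, ∀ q ∈ B, p ≠ 0 → ∃ b ∈ B, ∃ c ∈ B, b ≠ 0 ∧ b * q = c * p} {e : Q}
    (he : e ∈ fracSub B hU hO) (h0 : e ≠ 0) : ∃ f ∈ fracSub B hU hO, e * f = 1 := by
  obtain ⟨p, hp, hp', h⟩ := he
  obtain ⟨u, hu⟩ := hU p hp hp'
  have hq : p * e ≠ 0 := by
    intro h1
    apply h0
    rw [← hu] at h1
    exact u.mul_right_eq_zero.1 h1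
  obtain ⟨v, hv⟩ := hU _ h hq
  refine ⟨v⁻¹ * p, ⟨p * e, h, hq, ?_⟩, ?_⟩
  · rw [← hv, ← mul_assoc, Units.mul_inv, one_mul]; exact hp
  · have h1 : e = ↑u⁻¹ * ↑v := by rw [hv, ← hu, Units.inv_mul_cancel_left]
    rw [h1, ← hu]
    rw [mul_assoc, Units.mul_inv_cancel_left, Units.inv_mul]

/-- elements with a right fraction description are in the ring of fractions -/
lemma mem_fracSub_of_right {B : Subring Q} {hU : ∀ b ∈ B, b ≠ 0 → IsUnit b}
    {hO : ∀ p ∈ B, ∀ q ∈ B, p ≠ 0 → ∃ b ∈ B, ∃ c ∈ B, b ≠ 0 ∧ b * q = c * p} {e : Q}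
    {p : Q} (hp : p ∈ B) (hp' : p ≠ 0) (h : e * p ∈ B) : e ∈ fracSub B hU hO := by
  obtain ⟨b, hb, c, hc, hb', hbc⟩ := hO p hp (e * p) h hp'
  refine ⟨b, hb, hb', ?_⟩
  obtain ⟨u, hu⟩ := hU p hp hp'
  have h1 : b * e = c := by
    rw [← hu, ← mul_assoc] at hbc
    exact (Units.mul_left_inj u).1 hbc
  rw [h1]; exact hc

end fractions

open VS

/-- product of monomials -/
noncomputable def gmul (g g' : G) : G := (g'.1 + tr g'.2 g.1, g.2 + g'.2)

/-- adjoint of a monomial -/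
noncomputable def gstar (g : G) : G := (iv (-g.2) 0 + tr (-g.2) g.1, -g.2)

lemma we_gmul (g g' : G) (n : ℤ) : we (gmul g g') n = we g' n + we g (n + g'.2) := by
  unfold we w gmul
  rw [W_add, W_tr, show n + (g.2 + g'.2) = n + g'.2 + g.2 by ring]; ring

lemma we_gstar (g : G) (n : ℤ) : we (gstar g) n = we g (n + -g.2) := by
  unfold we w gstar
  simp only
  rw [W_add, W_tr, W_iv, show n + -g.2 + g.2 = n by ring, add_zero]; ring

lemma fr_op_mul (g g' : G) : Fr (op g * op g' - op (gmul g g')) := by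
  refine fr_of_E (g'.2.natAbs) fun n hn hn0 => ?_
  rw [sub_apply', mul_apply', op_E g' hn0, map_smul, op_E g (by omega), op_E _ hn0, smul_smul,
    we_gmul, zpow_add₀ (by norm_num), show n + g'.2 + g.2 = n + (gmul g g').2 by
      unfold gmul; ring, sub_self]

lemma star_op (g : G) : star (op g) = op (gstar g) := by
  refine Ad_ext_E fun n hn => ?_
  unfold op
  rw [star_sh, sh_E _ _ _ hn, sh_E _ _ _ hn]
  show _ = (2 : ℝ) ^ we (gstar g) n • E (n + -g.2)
  rw [we_gstar]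

lemma op_one : op (0, 0) = 1 := by
  refine Ad_ext_E fun n hn => ?_
  rw [op_E _ hn, one_apply']
  have : we (0, 0) n = 0 := by unfold we w; simp [W]
  rw [this]; simp

/-- the quotient ring -/
abbrev QQ : Type := Ad VS ⧸ J VS

/-- the quotient map -/
noncomputable abbrev π : Ad VS →+* QQ := Ideal.Quotient.mk (J VS)

lemma π_eq_zero {T : Ad VS} : π T = 0 ↔ Fr T := Ideal.Quotient.eq_zero_iff_mem

lemma π_eq {S T : Ad VS} : π S = π T ↔ Fr (S - T) := Ideal.Quotient.mk_eq_mk_iff_sub_mem S T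

lemma not_fr_one : ¬ Fr (1 : Ad VS) := by
  intro h
  have : FiniteDimensional ℝ (LinearMap.range (1 : Ad VS).1) := h
  -- the basis vectors are linearly independent
  have hli : LinearIndependent ℝ (fun n : ℕ => (⟨E (n : ℤ), ⟨E n, rfl⟩⟩ :
      LinearMap.range (1 : Ad VS).1)) := by
    have h1 : LinearIndependent ℝ (fun n : ℕ => E (n : ℤ)) := by
      rw [linearIndependent_iff']
      intro s g hg i hi
      have h2 : ⟪∑ j ∈ s, g j • E (j : ℤ), E (i : ℤ)⟫_ℝ = 0 := by rw [hg, inner_zero_left]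
      rw [sum_inner, Finset.sum_eq_single i] at h2
      · rw [real_inner_smul_left, inner_E, E_coe, if_pos ⟨by positivity, rfl⟩, mul_one] at h2
        exact h2
      · intro j _ hji
        rw [real_inner_smul_left, inner_E, E_coe, if_neg, mul_zero]
        rintro ⟨_, h3⟩
        exact hji (by exact_mod_cast h3.symm)
      · intro h3; exact absurd hi h3
    exact LinearIndependent.of_comp (LinearMap.range (1 : Ad VS).1).subtype h1
  have := hli.finite
  exact Infinite.not_finite this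

instance : Nontrivial QQ := ⟨⟨1, 0, fun h => not_fr_one (π_eq_zero.1 (by rw [map_one]; exact h))⟩⟩

/-- the anti-automorphism of the quotient induced by the adjoint -/
noncomputable def st : QQ →+* QQᵐᵒᵖ :=
  Ideal.Quotient.lift (J VS) ((RingHom.op π).comp
    (starRingEquiv (R := Ad VS) : Ad VS ≃+* (Ad VS)ᵐᵒᵖ).toRingHom) (by
    intro a ha
    have h1 : π (star a) = 0 := π_eq_zero.2 (Fr.star ha)
    show MulOpposite.op (π (star a)) = 0
    rw [h1]; rfl)

lemma st_π (a : Ad VS) : (st (π a)).unop = π (star a) := rfl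

/-- the image of a combination of monomials -/
noncomputable def PL : (G →₀ ℝ) →ₗ[ℝ] QQ :=
  (Ideal.Quotient.mkₐ ℝ (J VS)).toLinearMap ∘ₗ Finsupp.linearCombination ℝ op

lemma PL_eq (c : G →₀ ℝ) : PL c = π (Pp c) := rfl

lemma PL_single (g : G) (r : ℝ) : PL (Finsupp.single g r) = r • π (op g) := by
  unfold PL
  rw [LinearMap.comp_apply, Finsupp.linearCombination_single, map_smul]; rfl

lemma π_op_mul (g g' : G) : π (op g) * π (op g') = π (op (gmul g g')) := by
  rw [← map_mul, π_eq]; exact fr_op_mul g g'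

lemma PL_star (c : G →₀ ℝ) : ∃ c' : G →₀ ℝ, (st (PL c)).unop = PL c' := by
  induction c using Finsupp.induction_linear with
  | zero => exact ⟨0, by simp⟩
  | add f g hf hg =>
    obtain ⟨f', hf⟩ := hf
    obtain ⟨g', hg⟩ := hg
    refine ⟨f' + g', ?_⟩
    rw [LinearMap.map_add, RingHom.map_add, LinearMap.map_add, MulOpposite.unop_add, hf, hg]
  | single g r =>
    refine ⟨Finsupp.single (gstar g) r, ?_⟩
    rw [PL_single, PL_single]
    have h1 : r • π (op g) = π (r • op g) := rfl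
    rw [h1, st_π]
    have h2 : star (r • op g) = r • op (gstar g) := by
      rw [← star_op]
      refine star_eq fun v w => ?_
      rw [smul_apply', smul_apply', real_inner_smul_left, real_inner_smul_right, star_spec]
    rw [h2]; rfl

lemma PL_ne_zero {c : G →₀ ℝ} (hc : c ≠ 0) : IsUnit (PL c) := by
  -- right inverse
  obtain ⟨A, hA⟩ := right_parametrix c hc
  have h1 : PL c * π A = 1 := by
    rw [PL_eq, ← map_mul, ← map_one π, π_eq]; exact hA
  -- left inverse from the adjoint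
  obtain ⟨c', hc'⟩ := PL_star c
  have hc'0 : c' ≠ 0 := by
    rintro rfl
    rw [map_zero, MulOpposite.unop_eq_zero_iff] at hc'
    have h2 : st (PL c * π A) = 0 := by rw [map_mul, hc', zero_mul]
    rw [h1, map_one] at h2
    exact one_ne_zero h2
  obtain ⟨A', hA'⟩ := right_parametrix c' hc'0
  have h2 : PL c' * π A' = 1 := by
    rw [PL_eq, ← map_mul, ← map_one π, π_eq]; exact hA'
  have h3 : π (star A') * PL c = 1 := by
    have h4 : (st (PL c' * π A')).unop = 1 := by rw [h2, map_one]; rfl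
    rw [map_mul, MulOpposite.unop_mul, st_π] at h4
    have h5 : (st (PL c')).unop = PL c := by
      rw [← hc']
      rw [PL_eq]
      rw [st_π, st_π, star_star]
    rw [h5] at h4
    exact h4
  exact ⟨⟨PL c, π A, h1, by
    have : π A = π (star A') := by
      calc π A = (π (star A') * PL c) * π A := by rw [h3, one_mul]
        _ = π (star A') * (PL c * π A) := by rw [mul_assoc]
        _ = _ := by rw [h1, mul_one]
    rw [this, h3]⟩, rfl⟩

/-! ### Counting -/

lemma folner_ineq (r : ℕ) (hr : 1 ≤ r) :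
    (60 * r ^ 2 + 2 * r) ^ (10 * r) * (10 * r) < 2 * ((60 * r ^ 2) ^ (10 * r) * (8 * r)) := by
  have hr' : (1 : ℝ) ≤ r := by exact_mod_cast hr
  have h1 : (2 : ℝ) / 3 ≤ (1 - 1 / (30 * r + 1)) ^ (10 * r) := by
    have h2 := one_add_mul_le_pow (a := -(1 / (30 * (r : ℝ) + 1))) (by
      have : 1 / (30 * (r : ℝ) + 1) ≤ 1 := by
        rw [div_le_one (by positivity)]; linarith
      linarith) (10 * r)
    have h3 : (1 : ℝ) + -(1 / (30 * r + 1)) = 1 - 1 / (30 * r + 1) := by ring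
    rw [h3] at h2
    refine le_trans ?_ h2
    push_cast
    have h4 : 10 * (r : ℝ) * (1 / (30 * r + 1)) ≤ 1 / 3 := by
      rw [mul_one_div, div_le_div_iff₀ (by positivity) (by norm_num)]; linarith
    linarith
  have h5 : (1 : ℝ) - 1 / (30 * r + 1) = (30 * r) / (30 * r + 1) := by field_simp; ring
  rw [h5, div_pow, le_div_iff₀ (by positivity)] at h1
  have h6 : ((60 * r ^ 2 + 2 * r : ℕ) : ℝ) ^ (10 * r) * (10 * r) <
      2 * (((60 * r ^ 2 : ℕ) : ℝ) ^ (10 * r) * (8 * r)) := by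
    have e1 : ((60 * r ^ 2 + 2 * r : ℕ) : ℝ) = (2 * r) * (30 * r + 1) := by push_cast; ring
    have e2 : ((60 * r ^ 2 : ℕ) : ℝ) = (2 * r) * (30 * r) := by push_cast; ring
    rw [e1, e2, mul_pow, mul_pow _ (30 * (r : ℝ))]
    have h7 : (0 : ℝ) < (2 * r) ^ (10 * r) := by positivity
    have h8 : (0 : ℝ) < (30 * r + 1) ^ (10 * r) := by positivity
    have h9 : (30 * (r : ℝ) + 1) ^ (10 * r) * 10 < 16 * (30 * r) ^ (10 * r) := by linarith
    calc (2 * (r : ℝ)) ^ (10 * r) * (30 * r + 1) ^ (10 * r) * (10 * r)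
        = ((2 * (r : ℝ)) ^ (10 * r) * r) * ((30 * r + 1) ^ (10 * r) * 10) := by ring
      _ < ((2 * (r : ℝ)) ^ (10 * r) * r) * (16 * (30 * r) ^ (10 * r)) :=
          mul_lt_mul_of_pos_left h9 (by positivity)
      _ = _ := by ring
  exact_mod_cast h6

lemma tr_apply (s : ℤ) (μ : ℤ →₀ ℤ) (d : ℤ) : (tr s μ) d = μ (d - s) := by
  unfold tr
  have h := Finsupp.mapDomain_apply (f := (· + s)) (add_left_injective s) μ (d - s)
  simpa using h

lemma folner (F : Finset G) : ∃ Φ Φ' : Finset G, (∀ f ∈ F, ∀ g ∈ Φ, gmul f g ∈ Φ') ∧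
    Φ'.card < 2 * Φ.card := by
  classical
  obtain ⟨r, hr1, hr⟩ : ∃ r : ℕ, 1 ≤ r ∧ ∀ f ∈ F, f.2.natAbs ≤ r ∧
      ∀ d ∈ f.1.support, d.natAbs ≤ r ∧ (f.1 d).natAbs ≤ r := by
    refine ⟨1 + F.sup (fun f : G => f.2.natAbs + f.1.support.sup (fun d => d.natAbs + (f.1 d).natAbs)),
      by omega, fun f hf => ?_⟩
    have h1 : f.2.natAbs + f.1.support.sup (fun d => d.natAbs + (f.1 d).natAbs) ≤
        F.sup (fun f : G => f.2.natAbs + f.1.support.sup (fun d => d.natAbs + (f.1 d).natAbs)) :=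
      Finset.le_sup (f := fun f : G => f.2.natAbs +
        f.1.support.sup (fun d => d.natAbs + (f.1 d).natAbs)) hf
    refine ⟨by omega, fun d hd => ?_⟩
    have h2 : d.natAbs + (f.1 d).natAbs ≤ f.1.support.sup (fun d => d.natAbs + (f.1 d).natAbs) :=
      Finset.le_sup (f := fun d : ℤ => d.natAbs + (f.1 d).natAbs) hd
    omega
  set M : ℤ := 60 * r ^ 2 with hM
  set N : ℤ := 8 * r with hN
  refine ⟨(Finset.finsupp (Ico (-(r : ℤ)) (N + r)) (fun _ => Ico 0 M)) ×ˢ (Ico 0 N),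
    (Finset.finsupp (Ico (-(r : ℤ)) (N + r)) (fun _ => Ico (-(r : ℤ)) (M + r))) ×ˢ
      (Ico (-(r : ℤ)) (N + r)), fun f hf g hg => ?_, ?_⟩
  · rw [Finset.mem_product, Finset.mem_finsupp_iff, mem_Ico] at hg ⊢
    obtain ⟨⟨hg1, hg2⟩, hg3⟩ := hg
    obtain ⟨hf1, hf2⟩ := hr f hf
    have hval : ∀ d, -(r : ℤ) ≤ (tr g.2 f.1) d ∧ (tr g.2 f.1) d ≤ r := by
      intro d
      rw [tr_apply]
      by_cases h : d - g.2 ∈ f.1.support
      · have := (hf2 _ h).2; omega
      · rw [Finsupp.notMem_support_iff.1 h]; omega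
    have hsupp : ∀ d, (tr g.2 f.1) d ≠ 0 → d ∈ Ico (-(r : ℤ)) (N + r) := by
      intro d hd
      rw [tr_apply] at hd
      have := (hf2 _ (Finsupp.mem_support_iff.2 hd)).1
      rw [mem_Ico]; omega
    refine ⟨⟨fun d hd => ?_, fun d hd => ?_⟩, ?_⟩
    · have hd' : (g.1 + tr g.2 f.1) d ≠ 0 := Finsupp.mem_support_iff.1 hd
      rw [Finsupp.add_apply] at hd'
      by_cases h : (tr g.2 f.1) d = 0
      · rw [h, add_zero] at hd'
        exact hg1 (Finsupp.mem_support_iff.2 hd')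
      · exact hsupp d h
    · show (g.1 + tr g.2 f.1) d ∈ _
      rw [Finsupp.add_apply, mem_Ico]
      have h1 := hg2 d hd
      rw [mem_Ico] at h1
      have h2 := hval d
      have h3 : (tr g.2 f.1) d < r ∨ (tr g.2 f.1) d = r := by omega
      omega
    · show -(r : ℤ) ≤ f.2 + g.2 ∧ f.2 + g.2 < N + r
      omega
  · rw [Finset.card_product, Finset.card_product, Finset.card_finsupp, Finset.card_finsupp,
      Finset.prod_const, Finset.prod_const, Int.card_Ico, Int.card_Ico, Int.card_Ico, Int.card_Ico]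
    have e1 : (N + r - -(r : ℤ)).toNat = 10 * r := by omega
    have e2 : (M + r - -(r : ℤ)).toNat = 60 * r ^ 2 + 2 * r := by
      have : M + r - -(r : ℤ) = ((60 * r ^ 2 + 2 * r : ℕ) : ℤ) := by rw [hM]; push_cast; ring
      rw [this]; rfl
    have e3 : (M - 0).toNat = 60 * r ^ 2 := by
      have : M - 0 = ((60 * r ^ 2 : ℕ) : ℤ) := by rw [hM]; push_cast; ring
      rw [this]; rfl
    have e4 : (N - 0).toNat = 8 * r := by omega
    rw [e1, e2, e3, e4]
    exact folner_ineq r hr1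

lemma PL_sum (c : G →₀ ℝ) : PL c = ∑ g ∈ c.support, c g • π (op g) := by
  conv_lhs => rw [← Finsupp.sum_single c]
  unfold Finsupp.sum
  rw [map_sum]
  exact Finset.sum_congr rfl fun g _ => PL_single g (c g)

lemma PL_mul_mem (q b : G →₀ ℝ) (S : Submodule ℝ QQ)
    (h : ∀ f ∈ q.support, ∀ g ∈ b.support, π (op (gmul f g)) ∈ S) : PL q * PL b ∈ S := by
  rw [PL_sum q, PL_sum b, Finset.sum_mul]
  refine Submodule.sum_mem _ fun f hf => ?_
  rw [Finset.mul_sum]
  refine Submodule.sum_mem _ fun g hg => ?_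
  rw [smul_mul_smul_comm, π_op_mul]
  exact Submodule.smul_mem _ _ (h f hf g hg)

/-- the right Ore condition, by counting dimensions -/
lemma right_ore (p q : G →₀ ℝ) (hp : p ≠ 0) :
    ∃ b c : G →₀ ℝ, b ≠ 0 ∧ PL q * PL b = PL p * PL c := by
  classical
  obtain ⟨Φ, Φ', hΦ, hcard⟩ := folner (p.support ∪ q.support)
  set S : Submodule ℝ QQ := Submodule.span ℝ ((Φ'.image (fun g => π (op g)) : Finset QQ) : Set QQ)
    with hS
  set D : Submodule ℝ (G →₀ ℝ) := Finsupp.supported ℝ ℝ (Φ : Set G) with hD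
  have hmem : ∀ f ∈ p.support ∪ q.support, ∀ g ∈ Φ, π (op (gmul f g)) ∈ S := by
    intro f hf g hg
    apply Submodule.subset_span
    rw [Finset.mem_coe, Finset.mem_image]
    exact ⟨_, hΦ f hf g hg, rfl⟩
  have hDsupp : ∀ b : D, b.1.support ⊆ Φ := by
    intro b
    have := (Finsupp.mem_supported ℝ b.1).1 b.2
    exact_mod_cast this
  set L0 : (D × D) →ₗ[ℝ] QQ :=
    (LinearMap.mulLeft ℝ (PL q)) ∘ₗ PL ∘ₗ D.subtype ∘ₗ LinearMap.fst ℝ D D -
    (LinearMap.mulLeft ℝ (PL p)) ∘ₗ PL ∘ₗ D.subtype ∘ₗ LinearMap.snd ℝ D D with hL0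
  have hL0' : ∀ x : D × D, L0 x = PL q * PL x.1.1 - PL p * PL x.2.1 := fun x => rfl
  have hrange : ∀ x, L0 x ∈ S := by
    intro x
    rw [hL0']
    refine S.sub_mem (PL_mul_mem _ _ S fun f hf g hg => ?_) (PL_mul_mem _ _ S fun f hf g hg => ?_)
    · exact hmem f (Finset.mem_union_right _ hf) g (hDsupp _ hg)
    · exact hmem f (Finset.mem_union_left _ hf) g (hDsupp _ hg)
  set L : (D × D) →ₗ[ℝ] S := L0.codRestrict S hrange with hL
  have e0 : D ≃ₗ[ℝ] ((Φ : Set G) →₀ ℝ) := Finsupp.supportedEquivFinsupp (Φ : Set G)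
  have hfinD : FiniteDimensional ℝ D := LinearEquiv.finiteDimensional e0.symm
  have hrkD : Module.finrank ℝ D = Φ.card := by
    rw [e0.finrank_eq]; simp
  have hfinS : FiniteDimensional ℝ S := FiniteDimensional.span_finset ℝ _
  have hrkS : Module.finrank ℝ S ≤ Φ'.card :=
    (finrank_span_finset_le_card _).trans Finset.card_image_le
  have hker : LinearMap.ker L ≠ ⊥ := by
    have hDD : FiniteDimensional ℝ (D × D) := inferInstance
    have hfree : Module.Free ℝ D := Module.Free.of_equiv e0.symm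
    refine LinearMap.ker_ne_bot_of_finrank_lt (K := ℝ) (V := D × D) (V₂ := S) (f := L) ?_
    rw [Module.finrank_prod, hrkD]
    omega
  obtain ⟨x, hx, hx0⟩ := Submodule.exists_mem_ne_zero_of_ne_bot hker
  have hx' : PL q * PL x.1.1 - PL p * PL x.2.1 = 0 := by
    have h1 := congrArg Subtype.val (LinearMap.mem_ker.1 hx)
    exact h1
  refine ⟨x.1.1, x.2.1, ?_, sub_eq_zero.1 hx'⟩
  intro h0
  rw [h0, map_zero, mul_zero, zero_sub, neg_eq_zero] at hx'
  have h2 : PL x.2.1 = 0 := by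
    obtain ⟨u, hu⟩ := PL_ne_zero hp
    rw [← hu] at hx'
    exact u.mul_right_eq_zero.1 hx'
  have h3 : x.2.1 = 0 := by
    by_contra h
    exact (PL_ne_zero h).ne_zero h2
  apply hx0
  exact Prod.ext (Subtype.ext h0) (Subtype.ext h3)

/-- the subring generated by the monomials -/
noncomputable def B : Subring QQ where
  carrier := {b | ∃ c : G →₀ ℝ, PL c = b}
  mul_mem' := by
    rintro _ _ ⟨c, rfl⟩ ⟨d, rfl⟩
    have h : PL c * PL d ∈ LinearMap.range PL := by
      refine PL_mul_mem c d _ fun f _ g _ => ⟨Finsupp.single (gmul f g) 1, ?_⟩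
      rw [PL_single, one_smul]
    exact h
  one_mem' := ⟨Finsupp.single (0, 0) 1, by rw [PL_single, one_smul, op_one, map_one]⟩
  add_mem' := by
    rintro _ _ ⟨c, rfl⟩ ⟨d, rfl⟩
    exact ⟨c + d, map_add _ _ _⟩
  zero_mem' := ⟨0, map_zero _⟩
  neg_mem' := by
    rintro _ ⟨c, rfl⟩
    exact ⟨-c, map_neg _ _⟩

lemma mem_B {b : QQ} : b ∈ B ↔ ∃ c : G →₀ ℝ, PL c = b := Iff.rfl

lemma B_unit : ∀ b ∈ B, b ≠ 0 → IsUnit b := by
  rintro _ ⟨c, rfl⟩ h
  apply PL_ne_zero
  rintro rfl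
  exact h (map_zero _)

lemma st_B {b : QQ} (hb : b ∈ B) : (st b).unop ∈ B := by
  obtain ⟨c, rfl⟩ := hb
  obtain ⟨c', hc'⟩ := PL_star c
  exact ⟨c', hc'.symm⟩

lemma st_st (b : QQ) : (st (st b).unop).unop = b := by
  obtain ⟨a, rfl⟩ := Ideal.Quotient.mk_surjective b
  show (st (st (π a)).unop).unop = π a
  rw [st_π, st_π, star_star]

lemma st_mul (a b : QQ) : (st (a * b)).unop = (st b).unop * (st a).unop := by
  rw [map_mul, MulOpposite.unop_mul]

lemma left_ore : ∀ p ∈ B, ∀ q ∈ B, p ≠ 0 → ∃ b ∈ B, ∃ c ∈ B, b ≠ 0 ∧ b * q = c * p := by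
  intro p hp q hq hp0
  obtain ⟨p', hp'⟩ := st_B hp
  obtain ⟨q', hq'⟩ := st_B hq
  have hp'0 : p' ≠ 0 := by
    rintro rfl
    rw [map_zero] at hp'
    apply hp0
    rw [← st_st p, ← hp', map_zero]; rfl
  obtain ⟨b, c, hb, hbc⟩ := right_ore p' q' hp'0
  refine ⟨(st (PL b)).unop, st_B ⟨b, rfl⟩, (st (PL c)).unop, st_B ⟨c, rfl⟩, ?_, ?_⟩
  · intro h
    apply (PL_ne_zero hb).ne_zero
    rw [← st_st (PL b), h, map_zero]; rfl
  · have h1 := congrArg (fun x => (st x).unop) hbc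
    simp only [st_mul, hp', hq', st_st] at h1
    exact h1

/-- The division ring of fractions. -/
noncomputable def KK : Subring QQ := fracSub B B_unit left_ore

/-- The ring of the counterexample. -/
noncomputable def RR : Subring (Ad VS) := KK.comap π

lemma mem_RR {a : Ad VS} : a ∈ RR ↔ π a ∈ KK := Iff.rfl

lemma B_le_KK {b : QQ} (hb : b ∈ B) : b ∈ KK :=
  ⟨1, B.one_mem, one_ne_zero, by rw [one_mul]; exact hb⟩

lemma RR_star : ∀ a ∈ RR, star a ∈ RR := by
  intro a ha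
  obtain ⟨p, hp, hp0, h⟩ := mem_RR.1 ha
  rw [mem_RR, ← st_π]
  refine mem_fracSub_of_right (p := (st p).unop) (st_B hp) ?_ ?_
  · intro h1
    apply hp0
    rw [← st_st p, h1, map_zero]; rfl
  · rw [← st_mul]; exact st_B h

lemma RR_fr : ∀ a, Fr a → a ∈ RR := by
  intro a ha
  rw [mem_RR, π_eq_zero.2 ha]
  exact KK.zero_mem

lemma RR_div : ∀ a ∈ RR, ¬ Fr a → ∃ b ∈ RR, Fr (a * b - 1) := by
  intro a ha h
  have h0 : π a ≠ 0 := fun h' => h (π_eq_zero.1 h')
  obtain ⟨f, hf, hf1⟩ := fracSub_inv (mem_RR.1 ha) h0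
  obtain ⟨b, rfl⟩ := Ideal.Quotient.mk_surjective f
  refine ⟨b, hf, ?_⟩
  rw [← π_eq, map_mul, map_one]; exact hf1

/-- the weighted shift -/
noncomputable def xx : Ad VS := op (0, 1)

lemma xx_mem : xx ∈ RR := by
  rw [mem_RR]
  exact B_le_KK ⟨Finsupp.single (0, 1) 1, by rw [PL_single, one_smul]; rfl⟩

lemma xx_coe (v : VS) (m : ℤ) :
    (xx.1 v).1 m = if 0 ≤ m then (2 : ℝ) ^ we (0, 1) (m - 1) * v.1 (m - 1) else 0 := rfl

lemma xx_injective : Function.Injective xx.1 := by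
  rw [injective_iff_map_eq_zero]
  intro v hv
  refine VS.ext fun m => ?_
  rw [zero_coe]
  rcases lt_or_ge m 0 with h | h
  · exact neg_coe v h
  · have h1 := congrArg (fun y : VS => y.1 (m + 1)) hv
    simp only [xx_coe, zero_coe] at h1
    rw [if_pos (by omega), show m + 1 - 1 = m by ring] at h1
    rcases mul_eq_zero.1 h1 with h2 | h2
    · exact absurd h2 (by positivity)
    · exact h2

lemma xx_not_surjective : ¬ Function.Surjective xx.1 := by
  intro h
  obtain ⟨v, hv⟩ := h (E 0)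
  have h1 := congrArg (fun y : VS => y.1 0) hv
  simp only [xx_coe, E_coe] at h1
  rw [if_pos le_rfl, neg_coe v (by norm_num), mul_zero, if_pos ⟨le_rfl, trivial⟩] at h1
  exact zero_ne_one h1

/-- the weighted shift has no unit quasi-inverse -/
lemma not_unitRegular_xx (u : RRˣ)
    (hu : (⟨xx, xx_mem⟩ : RR) = (⟨xx, xx_mem⟩ : RR) * (u : RR) * (⟨xx, xx_mem⟩ : RR)) : False := by
  have h1 : ∀ v, xx.1 ((u : RR).1.1 (xx.1 v)) = xx.1 v := by
    intro v
    have h2 := congrArg (fun a : RR => a.1.1 v) hu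
    exact h2.symm
  have h3 : ∀ v, (u : RR).1.1 (xx.1 v) = v := fun v => xx_injective (h1 v)
  have h4 : ∀ v, ((↑u⁻¹ : RR)).1.1 ((u : RR).1.1 v) = v := by
    intro v
    have h5 : (↑u⁻¹ : RR) * (u : RR) = 1 := Units.inv_mul u
    exact congrArg (fun a : RR => a.1.1 v) h5
  apply xx_not_surjective
  intro w
  refine ⟨(u : RR).1.1 w, ?_⟩
  have h6 := h3 ((u : RR).1.1 w)
  have h7 := congrArg (fun v => (↑u⁻¹ : RR).1.1 v) h6
  simp only [h4] at h7
  exact h7

end Pool.Agent.Helper8.StarReg
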