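import Pool.Agent.Helper8.StarReg.Adj

/-!
# Subrings of adjointable endomorphisms containing the finite rank ones, with division quotient
-/

set_option autoImplicit false

open scoped InnerProductSpace

namespace Pool.Agent.Helper8.StarReg

lemma end_unitRegular {U : Type*} [AddCommGroup U] [Module ℝ U] [FiniteDimensional ℝ U]
    (f : U →ₗ[ℝ] U) : ∃ g : U ≃ₗ[ℝ] U, ∀ x, f (g (f x)) = f x := by
  obtain ⟨C, hC⟩ := Submodule.exists_isCompl (LinearMap.ker f)
  obtain ⟨D, hD⟩ := Submodule.exists_isCompl (LinearMap.range f)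
  set e1 := LinearMap.kerComplementEquivRange f hC.symm with he1
  have hrank : Module.finrank ℝ D = Module.finrank ℝ (LinearMap.ker f) := by
    have h1 := LinearMap.finrank_range_add_finrank_ker f
    have h2 := Submodule.finrank_add_eq_of_isCompl hD
    omega
  set h := LinearEquiv.ofFinrankEq D (LinearMap.ker f) hrank with hh
  refine ⟨(Submodule.prodEquivOfIsCompl _ _ hD).symm ≪≫ₗ (LinearEquiv.prodCongr e1.symm h) ≪≫ₗ
    (Submodule.prodEquivOfIsCompl _ _ hC.symm), fun x => ?_⟩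
  have h1 : (Submodule.prodEquivOfIsCompl _ _ hD).symm (f x) = (⟨f x, ⟨x, rfl⟩⟩, 0) :=
    Submodule.prodEquivOfIsCompl_symm_apply_left _ _ hD (⟨f x, ⟨x, rfl⟩⟩ : LinearMap.range f)
  simp only [LinearEquiv.trans_apply]
  rw [h1]
  simp only [LinearEquiv.prodCongr_apply, map_zero, Submodule.coe_prodEquivOfIsCompl',
    ZeroMemClass.coe_zero, add_zero]
  have h2 : e1 (e1.symm (⟨f x, ⟨x, rfl⟩⟩ : LinearMap.range f)) = ⟨f x, ⟨x, rfl⟩⟩ :=
    LinearEquiv.apply_symm_apply _ _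
  exact congrArg Subtype.val h2

lemma ring_id1 {A : Type*} [Ring A] (a s : A) : a - a * s * a = -((a * s - 1) * a) := by
  noncomm_ring

lemma ring_id2 {A : Type*} [Ring A] (a s t : A) : a * (s + (1 - s * a) * t * (1 - a * s)) * a =
    a * s * a + (a - a * s * a) * t * (a - a * s * a) := by
  noncomm_ring

variable {V : Type} [NormedAddCommGroup V] [InnerProductSpace ℝ V]

lemma Fr.neg {T : Ad V} (h : Fr T) : Fr (-T) := by
  have : FiniteDimensional ℝ (LinearMap.range T.1) := h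
  exact Fr.of_range_le (LinearMap.range T.1) (fun v => (LinearMap.range T.1).neg_mem ⟨v, rfl⟩)

lemma corner {e a : Ad V} (he : Fr e) (hstar : star e = e) (hidem : e * e = e)
    (ha : e * a * e = a) : ∃ u v : Ad V, Fr u ∧ Fr v ∧ e * u * e = u ∧ e * v * e = v ∧
      u * v = e ∧ v * u = e ∧ a = a * u * a := by
  have : FiniteDimensional ℝ (LinearMap.range e.1) := he
  set U := LinearMap.range e.1 with hU
  have hee : ∀ v, e.1 (e.1 v) = e.1 v := fun v => by rw [← mul_apply', hidem]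
  have heU : ∀ v, e.1 v = (U.orthogonalProjectionOnto v : V) := by
    intro v
    have h1 : U.starProjection v = e.1 v := by
      refine (Submodule.eq_starProjection_of_mem_of_inner_eq_zero ⟨v, rfl⟩ ?_)
      rintro _ ⟨w, rfl⟩
      rw [real_inner_comm, star_spec, hstar, map_sub, hee, sub_self, inner_zero_right]
    rw [← h1]; rfl
  have hmem : ∀ v ∈ U, e.1 v = v := by
    rintro _ ⟨v, rfl⟩; exact hee v
  have haU : ∀ v, a.1 v ∈ U := by
    intro v
    rw [← ha]; exact ⟨_, rfl⟩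
  have hae : ∀ v, a.1 (e.1 v) = a.1 v := by
    intro v
    conv_rhs => rw [← ha]
    conv_lhs => rw [← ha]
    rw [mul_apply', mul_apply', hee]
    rfl
  have hUU : ∀ u : U, U.orthogonalProjectionOnto (u : V) = u := fun u =>
    Submodule.orthogonalProjectionOnto_mem_subspace_eq_self u
  obtain ⟨g, hg⟩ := end_unitRegular (U := U)
    ((a.1.restrict (fun v _ => haU v) : U →ₗ[ℝ] U))
  obtain ⟨u, hu, huv⟩ := exists_ext U U g.toLinearMap
  obtain ⟨v, hv, hvv⟩ := exists_ext U U g.symm.toLinearMap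
  refine ⟨u, v, hu, hv, Ad_ext fun x => ?_, Ad_ext fun x => ?_, Ad_ext fun x => ?_,
    Ad_ext fun x => ?_, Ad_ext fun x => ?_⟩
  · rw [mul_apply', mul_apply', huv, huv, heU x, hUU, hmem _ (Subtype.mem _)]
  · rw [mul_apply', mul_apply', hvv, hvv, heU x, hUU, hmem _ (Subtype.mem _)]
  · rw [mul_apply', hvv, huv, hUU, heU x]
    simp
  · rw [mul_apply', hvv, huv, hUU, heU x]
    simp
  · rw [mul_apply', mul_apply', huv]
    have h1 : U.orthogonalProjectionOnto (a.1 x) = ⟨a.1 x, haU x⟩ := hUU ⟨a.1 x, haU x⟩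
    rw [h1]
    have h2 := hg (U.orthogonalProjectionOnto x)
    have h3 : (a.1.restrict (fun v _ => haU v) : U →ₗ[ℝ] U) (U.orthogonalProjectionOnto x) =
        ⟨a.1 x, haU x⟩ := by
      apply Subtype.ext
      show a.1 ((U.orthogonalProjectionOnto x : U) : V) = a.1 x
      rw [← heU, hae]
    rw [h3] at h2
    exact (congrArg Subtype.val h2).symm

/-- The star ring structure on a star closed subring. -/
@[reducible]
noncomputable def starRingOf (R : Subring (Ad V)) (h : ∀ a ∈ R, star a ∈ R) : StarRing R where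
  star a := ⟨star a.1, h a.1 a.2⟩
  star_involutive a := Subtype.ext (star_star a.1)
  star_mul a b := Subtype.ext (star_mul a.1 b.1)
  star_add a b := Subtype.ext (star_add a.1 b.1)

lemma R_regular (R : Subring (Ad V)) (hJ : ∀ a, Fr a → a ∈ R)
    (hdiv : ∀ a ∈ R, ¬ Fr a → ∃ b ∈ R, Fr (a * b - 1)) (a : Ad V) (ha : a ∈ R) :
    ∃ x ∈ R, a = a * x * a := by
  by_cases h : Fr a
  · obtain ⟨S, hS, h1⟩ := fr_regular h
    exact ⟨S, hJ S hS, h1⟩
  · obtain ⟨s, hs, h1⟩ := hdiv a ha h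
    have hc : Fr (a - a * s * a) := by
      rw [ring_id1]; exact (h1.mul_right a).neg
    obtain ⟨t, ht, h2⟩ := fr_regular hc
    refine ⟨s + (1 - s * a) * t * (1 - a * s), ?_, ?_⟩
    · exact R.add_mem hs (R.mul_mem (R.mul_mem (R.sub_mem R.one_mem (R.mul_mem hs ha)) (hJ t ht))
        (R.sub_mem R.one_mem (R.mul_mem ha hs)))
    · rw [ring_id2, ← h2]; abel

/-- The ideal of finite rank elements of `R`. -/
noncomputable def M (R : Subring (Ad V)) : TwoSidedIdeal R :=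
  TwoSidedIdeal.mk' {a : R | Fr a.1} Fr.zero (fun h1 h2 => Fr.add h1 h2)
    (fun {a} h => Fr.neg (T := a.1) h)
    (fun h => Fr.mul_left h _) (fun h => Fr.mul_right h _)

lemma mem_M {R : Subring (Ad V)} {a : R} : a ∈ M R ↔ Fr a.1 := by
  unfold M
  rw [TwoSidedIdeal.mem_mk']; rfl

lemma M_min (R : Subring (Ad V)) (hJ : ∀ a, Fr a → a ∈ R) (I : TwoSidedIdeal R)
    (hI : ∃ x ∈ I, x ≠ 0) : M R ≤ I := by
  obtain ⟨T, hT, hT0⟩ := hI
  have h0 : ∃ v0, T.1.1 v0 ≠ 0 := by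
    by_contra hcon
    push Not at hcon
    exact hT0 (Subtype.ext (Ad_ext fun v => by rw [hcon v]; rfl))
  obtain ⟨v0, hv0⟩ := h0
  set y0 := T.1.1 v0 with hy0
  have hy : ⟪y0, y0⟫_ℝ ≠ 0 := fun h => hv0 (inner_self_eq_zero.1 h)
  have hrk : ∀ u w : V, (⟨rk u w, hJ _ (fr_rk u w)⟩ : R) ∈ I := by
    intro u w
    have h1 : (⟨rk u w, hJ _ (fr_rk u w)⟩ : R) =
        (⟨rk ((⟪y0, y0⟫_ℝ)⁻¹ • u) y0, hJ _ (fr_rk _ _)⟩ : R) * T *
          (⟨rk v0 w, hJ _ (fr_rk _ _)⟩ : R) := by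
      apply Subtype.ext
      refine Ad_ext fun v => ?_
      show ⟪w, v⟫_ℝ • u = ⟪y0, T.1.1 (⟪w, v⟫_ℝ • v0)⟫_ℝ • ((⟪y0, y0⟫_ℝ)⁻¹ • u)
      rw [map_smul, ← hy0, real_inner_smul_right, smul_smul]
      congr 1
      field_simp
    rw [h1]
    exact TwoSidedIdeal.mul_mem_right _ _ _ (TwoSidedIdeal.mul_mem_left _ _ _ hT)
  intro S hS
  rw [mem_M] at hS
  obtain ⟨n, u, w, hsum⟩ := fr_eq_sum hS
  have h2 : S = ∑ i, (⟨rk (u i) (w i), hJ _ (fr_rk _ _)⟩ : R) := by
    apply Subtype.ext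
    rw [hsum, AddSubmonoidClass.coe_finsetSum]
  rw [h2]
  exact sum_mem fun i _ => hrk _ _

lemma exists_ne_zero_M [Nontrivial V] (R : Subring (Ad V)) (hJ : ∀ a, Fr a → a ∈ R) :
    ∃ a : R, a ≠ 0 ∧ a ∈ M R := by
  obtain ⟨v, hv⟩ := exists_ne (0 : V)
  refine ⟨⟨rk v v, hJ _ (fr_rk v v)⟩, ?_, mem_M.2 (fr_rk v v)⟩
  intro h
  have h1 := congrArg (fun a : R => a.1.1 v) h
  have h2 : ⟪v, v⟫_ℝ • v = 0 := h1
  rcases smul_eq_zero.1 h2 with h3 | h3
  · exact hv (inner_self_eq_zero.1 h3)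
  · exact hv h3

end Pool.Agent.Helper8.StarReg
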