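import Pool.Agent.Helper8.StarReg.Growth
import Pool.Agent.Helper8.StarReg.Reduction

/-!
# The space of exponentially decaying sequences and weighted shifts
-/

set_option autoImplicit false

open Finset
open scoped InnerProductSpace

namespace Pool.Agent.Helper8.StarReg

/-- exponential bound on the nonnegative integers -/
def Bd (C ρ : ℝ) (v : ℤ → ℝ) : Prop := ∀ n : ℤ, 0 ≤ n → |v n| ≤ C * ρ ^ n

lemma Bd.nonneg {C ρ : ℝ} {v : ℤ → ℝ} (h : Bd C ρ v) : 0 ≤ C := by
  have := (abs_nonneg _).trans (h 0 le_rfl)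
  simpa using this

lemma Bd.mono {C ρ ρ' : ℝ} {v : ℤ → ℝ} (h : Bd C ρ v) (h0 : 0 < ρ) (hρ : ρ ≤ ρ') : Bd C ρ' v := by
  intro n hn
  refine (h n hn).trans (mul_le_mul_of_nonneg_left ?_ h.nonneg)
  exact zpow_le_zpow_left₀ hn h0.le hρ

lemma Bd.add {C D ρ : ℝ} {v w : ℤ → ℝ} (h : Bd C ρ v) (h' : Bd D ρ w) : Bd (C + D) ρ (v + w) := by
  intro n hn
  calc |v n + w n| ≤ |v n| + |w n| := abs_add_le _ _
    _ ≤ C * ρ ^ n + D * ρ ^ n := add_le_add (h n hn) (h' n hn)
    _ = _ := by ring

lemma Bd.smul {C ρ : ℝ} {v : ℤ → ℝ} (h : Bd C ρ v) (c : ℝ) : Bd (|c| * C) ρ (c • v) := by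
  intro n hn
  calc |c * v n| = |c| * |v n| := abs_mul _ _
    _ ≤ |c| * (C * ρ ^ n) := mul_le_mul_of_nonneg_left (h n hn) (abs_nonneg _)
    _ = _ := by ring

/-- exponentially decaying sequences, supported on the nonnegative integers -/
def VSub : Submodule ℝ (ℤ → ℝ) where
  carrier := {v | (∀ n < 0, v n = 0) ∧ ∃ C ρ : ℝ, 0 < ρ ∧ ρ < 1 ∧ Bd C ρ v}
  add_mem' := by
    rintro v w ⟨hv0, C, ρ, h0, h1, hv⟩ ⟨hw0, D, σ, h0', h1', hw⟩
    refine ⟨fun n hn => by simp [hv0 n hn, hw0 n hn], C + D, max ρ σ, lt_max_of_lt_left h0,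
      max_lt h1 h1', (hv.mono h0 (le_max_left _ _)).add (hw.mono h0' (le_max_right _ _))⟩
  zero_mem' := ⟨fun _ _ => rfl, 0, 1 / 2, by norm_num, by norm_num, fun n _ => by simp⟩
  smul_mem' := by
    rintro c v ⟨hv0, C, ρ, h0, h1, hv⟩
    exact ⟨fun n hn => by simp [hv0 n hn], |c| * C, ρ, h0, h1, hv.smul c⟩

/-- the sequence space -/
def VS : Type := ↥VSub

noncomputable instance : AddCommGroup VS := inferInstanceAs (AddCommGroup VSub)
noncomputable instance : Module ℝ VS := inferInstanceAs (Module ℝ VSub)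

namespace VS

lemma ext {v w : VS} (h : ∀ n, v.1 n = w.1 n) : v = w := Subtype.ext (funext h)

lemma add_coe (v w : VS) (n : ℤ) : (v + w).1 n = v.1 n + w.1 n := rfl
lemma sub_coe (v w : VS) (n : ℤ) : (v - w).1 n = v.1 n - w.1 n := rfl
lemma smul_coe (c : ℝ) (v : VS) (n : ℤ) : (c • v).1 n = c * v.1 n := rfl
lemma zero_coe (n : ℤ) : (0 : VS).1 n = 0 := rfl
lemma neg_coe (v : VS) {n : ℤ} (h : n < 0) : v.1 n = 0 := v.2.1 n h

lemma summable_mul (v w : VS) : Summable (fun n : ℤ => v.1 n * w.1 n) := by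
  obtain ⟨hv0, C, ρ, h0, h1, hv⟩ := v.2
  obtain ⟨hw0, D, σ, h0', h1', hw⟩ := w.2
  refine summable_int_iff_summable_nat_and_neg.2 ⟨?_, ?_⟩
  · have hg : Summable (fun n : ℕ => C * D * (ρ * σ) ^ n) := by
      refine (summable_geometric_of_lt_one (by positivity) ?_).mul_left _
      nlinarith
    refine Summable.of_norm_bounded hg fun n => ?_
    rw [Real.norm_eq_abs, abs_mul]
    have e1 := hv n (by positivity)
    have e2 := hw n (by positivity)
    rw [zpow_natCast] at e1 e2
    calc |v.1 n| * |w.1 n| ≤ (C * ρ ^ n) * (D * σ ^ n) :=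
          mul_le_mul e1 e2 (abs_nonneg _) ((abs_nonneg _).trans e1)
      _ = _ := by rw [mul_pow]; ring
  · refine summable_of_ne_finset_zero (s := {0}) fun n hn => ?_
    have : n ≠ 0 := by simpa using hn
    rw [hv0 (-(n : ℤ)) (by omega), zero_mul]

/-- the `l^2` inner product -/
noncomputable instance core : InnerProductSpace.Core ℝ VS where
  inner v w := ∑' n : ℤ, v.1 n * w.1 n
  conj_inner_symm v w := by
    simp only [conj_trivial]
    exact tsum_congr fun n => mul_comm _ _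
  re_inner_nonneg v := by
    simp only [RCLike.re_to_real]
    exact tsum_nonneg fun n => mul_self_nonneg _
  add_left u v w := by
    rw [← (summable_mul u w).tsum_add (summable_mul v w)]
    exact tsum_congr fun n => by rw [add_coe]; ring
  smul_left v w r := by
    rw [conj_trivial, ← tsum_mul_left]
    exact tsum_congr fun n => by rw [smul_coe]; ring
  definite v h := by
    have h1 := (summable_mul v v).hasSum
    have h2 : (fun n : ℤ => v.1 n * v.1 n) = 0 :=
      (hasSum_zero_iff_of_nonneg (fun n => mul_self_nonneg _)).1 (h ▸ h1)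
    exact ext fun n => mul_self_eq_zero.1 (congrFun h2 n)

noncomputable instance : NormedAddCommGroup VS := core.toNormedAddCommGroup
noncomputable instance : InnerProductSpace ℝ VS := InnerProductSpace.ofCore core.toCore

lemma inner_def (v w : VS) : ⟪v, w⟫_ℝ = ∑' n : ℤ, v.1 n * w.1 n := rfl

/-- basis vectors -/
noncomputable def E (m : ℤ) : VS :=
  ⟨fun n => if 0 ≤ m ∧ n = m then 1 else 0, by
    refine ⟨fun n hn => if_neg (by omega), (2 : ℝ) ^ m, 1 / 2, by norm_num, by norm_num,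
      fun n _ => ?_⟩
    show |if 0 ≤ m ∧ n = m then (1 : ℝ) else 0| ≤ _
    split_ifs with h
    · rw [h.2, ← mul_zpow]; norm_num
    · rw [abs_zero]; positivity⟩

lemma E_coe (m n : ℤ) : (E m).1 n = if 0 ≤ m ∧ n = m then 1 else 0 := rfl

lemma E_neg {m : ℤ} (h : m < 0) : E m = 0 := ext fun n => by
  rw [E_coe, if_neg (by omega)]; rfl

lemma inner_E (v : VS) (m : ℤ) : ⟪v, E m⟫_ℝ = v.1 m := by
  rcases lt_or_ge m 0 with h | h
  · rw [neg_coe v h, E_neg h, inner_zero_right]
  · rw [inner_def, tsum_eq_single m]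
    · rw [E_coe, if_pos ⟨h, rfl⟩, mul_one]
    · intro n hn
      rw [E_coe, if_neg (fun h => hn h.2), mul_zero]

lemma E_ne_zero {m : ℤ} (h : 0 ≤ m) : E m ≠ 0 := by
  intro h0
  have := congrArg (fun v : VS => v.1 m) h0
  simp only [E_coe, zero_coe] at this
  rw [if_pos ⟨h, trivial⟩] at this
  exact one_ne_zero this

instance : Nontrivial VS := ⟨⟨E 0, 0, E_ne_zero le_rfl⟩⟩

end VS

open VS

/-- Adjointable operators are determined by their values on the basis vectors. -/
lemma Ad_ext_E {S T : Ad VS} (h : ∀ n : ℤ, 0 ≤ n → S.1 (E n) = T.1 (E n)) : S = T := by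
  have h' : ∀ n : ℤ, S.1 (E n) = T.1 (E n) := by
    intro n
    rcases lt_or_ge n 0 with hn | hn
    · rw [E_neg hn, map_zero, map_zero]
    · exact h n hn
  refine Ad_ext fun v => VS.ext fun m => ?_
  have key : ∀ (T : Ad VS) (n : ℤ), ((star T).1 (E m)).1 n = ⟪T.1 (E n), E m⟫_ℝ := by
    intro T n; rw [star_spec, real_inner_comm, inner_E]
  rw [← inner_E, ← inner_E, star_spec, star_spec, inner_def, inner_def]
  refine tsum_congr fun n => ?_
  rw [key, key, h' n]

/-- the underlying linear map of a weighted shift -/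
noncomputable def shL (i : ℤ) (f : ℤ → ℝ) (hf : Subexp f) : Module.End ℝ VS where
  toFun v := ⟨fun m => if 0 ≤ m then f (m - i) * v.1 (m - i) else 0, by
    obtain ⟨hv0, C, ρ, h0, h1, hv⟩ := v.2
    refine ⟨fun n hn => if_neg (by omega), ?_⟩
    set σ := (1 + ρ) / (2 * ρ) with hσ
    have hσ1 : 1 < σ := by rw [hσ, lt_div_iff₀ (by positivity)]; linarith
    have hσρ : σ * ρ = (1 + ρ) / 2 := by rw [hσ]; field_simp
    obtain ⟨D, hD⟩ := hf σ hσ1
    have hρ' : 0 < σ * ρ := by positivity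
    have hD0 : 0 ≤ D := by
      have := (abs_nonneg _).trans (hD 0)
      simpa using this
    refine ⟨D * C * (σ * ρ) ^ (-i), σ * ρ, hρ', by rw [hσρ]; linarith, fun m hm => ?_⟩
    show |if 0 ≤ m then f (m - i) * v.1 (m - i) else 0| ≤ _
    rw [if_pos hm]
    rcases lt_or_ge (m - i) 0 with h | h
    · rw [hv0 _ h, mul_zero, abs_zero]
      have := hv.nonneg
      positivity
    · have e1 := hD (m - i)
      have e2 := hv (m - i) h
      have e3 : σ ^ (m - i).natAbs = σ ^ (m - i) := by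
        rw [← zpow_natCast]; congr 1; omega
      rw [e3] at e1
      rw [abs_mul]
      calc |f (m - i)| * |v.1 (m - i)| ≤ (D * σ ^ (m - i)) * (C * ρ ^ (m - i)) :=
            mul_le_mul e1 e2 (abs_nonneg _) ((abs_nonneg _).trans e1)
        _ = D * C * (σ * ρ) ^ (m - i) := by rw [mul_zpow]; ring
        _ = _ := by rw [sub_eq_add_neg, zpow_add₀ hρ'.ne']; ring⟩
  map_add' v w := VS.ext fun m => by
    show (if 0 ≤ m then f (m - i) * (v + w).1 (m - i) else 0) =
      (if 0 ≤ m then f (m - i) * v.1 (m - i) else 0) + (if 0 ≤ m then f (m - i) * w.1 (m - i) else 0)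
    split_ifs
    · rw [add_coe]; ring
    · ring
  map_smul' c v := VS.ext fun m => by
    show (if 0 ≤ m then f (m - i) * (c • v).1 (m - i) else 0) =
      c * (if 0 ≤ m then f (m - i) * v.1 (m - i) else 0)
    split_ifs
    · rw [smul_coe]; ring
    · ring

lemma shL_coe (i : ℤ) (f : ℤ → ℝ) (hf : Subexp f) (v : VS) (m : ℤ) :
    (shL i f hf v).1 m = if 0 ≤ m then f (m - i) * v.1 (m - i) else 0 := rfl

lemma shL_adj (i : ℤ) (f : ℤ → ℝ) (hf : Subexp f) :
    IsAdj (shL i f hf) (shL (-i) (fun m => f (m + -i)) (hf.shift (-i))) := by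
  intro v w
  rw [inner_def, inner_def]
  rw [← (Equiv.addRight i).tsum_eq]
  refine tsum_congr fun n => ?_
  simp only [Equiv.coe_addRight, shL_coe]
  rw [show n + i - i = n by ring, show n - -i = n + i by ring, show n + i + -i = n by ring]
  rcases lt_or_ge n 0 with hn | hn
  · rw [neg_coe v hn]; simp
  · rw [if_pos hn]
    rcases lt_or_ge (n + i) 0 with hi | hi
    · rw [neg_coe w hi]; simp
    · rw [if_pos hi]; ring

/-- weighted shifts -/
noncomputable def sh (i : ℤ) (f : ℤ → ℝ) (hf : Subexp f) : Ad VS := ⟨shL i f hf, _, shL_adj i f hf⟩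

lemma sh_coe (i : ℤ) (f : ℤ → ℝ) (hf : Subexp f) (v : VS) (m : ℤ) :
    ((sh i f hf).1 v).1 m = if 0 ≤ m then f (m - i) * v.1 (m - i) else 0 := rfl

lemma star_sh (i : ℤ) (f : ℤ → ℝ) (hf : Subexp f) :
    star (sh i f hf) = sh (-i) (fun m => f (m + -i)) (hf.shift (-i)) := star_eq (shL_adj i f hf)

lemma sh_E (i : ℤ) (f : ℤ → ℝ) (hf : Subexp f) {n : ℤ} (hn : 0 ≤ n) :
    (sh i f hf).1 (E n) = f n • E (n + i) := by
  refine VS.ext fun m => ?_
  rw [sh_coe, smul_coe, E_coe, E_coe]
  rcases lt_or_ge m 0 with hm | hm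
  · rw [if_neg (by omega), if_neg (by omega), mul_zero]
  · rw [if_pos hm]
    by_cases h : m = n + i
    · rw [if_pos ⟨hn, by omega⟩, if_pos ⟨by omega, h⟩, show m - i = n by omega]
    · rw [if_neg (by omega), if_neg (by omega), mul_zero, mul_zero]

/-- cut-off projection onto the first `N` coordinates -/
noncomputable def cut (N : ℤ) : Ad VS :=
  sh 0 (fun n => if n < N then 1 else 0) (Subexp.of_bdd 1 fun n => by split_ifs <;> simp)

lemma cut_E (N : ℤ) {n : ℤ} (hn : 0 ≤ n) : (cut N).1 (E n) = if n < N then E n else 0 := by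
  unfold cut
  rw [sh_E _ _ _ hn, add_zero]
  split_ifs <;> simp

lemma fr_cut (N : ℤ) : Fr (cut N) := by
  classical
  have hfin : FiniteDimensional ℝ (Submodule.span ℝ (Set.range (fun k : Fin N.toNat => E (k : ℤ)))) :=
    FiniteDimensional.span_of_finite ℝ (Set.finite_range _)
  refine Fr.of_range_le (Submodule.span ℝ (Set.range (fun k : Fin N.toNat => E (k : ℤ)))) fun v => ?_
  have h1 : (cut N).1 v = ∑ k : Fin N.toNat, v.1 (k : ℤ) • E (k : ℤ) := by
    refine VS.ext fun m => ?_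
    have h2 : (∑ k : Fin N.toNat, v.1 (k : ℤ) • E (k : ℤ)).1 m =
        ∑ k : Fin N.toNat, v.1 (k : ℤ) * (E (k : ℤ)).1 m := by
      have h3 : ∀ s : Finset (Fin N.toNat), (∑ k ∈ s, v.1 (k : ℤ) • E (k : ℤ)).1 m =
          ∑ k ∈ s, v.1 (k : ℤ) * (E (k : ℤ)).1 m := by
        intro s
        induction s using Finset.induction_on with
        | empty => simp [zero_coe]
        | insert i s hi ih => rw [Finset.sum_insert hi, Finset.sum_insert hi, add_coe, ih, smul_coe]
      exact h3 _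
    rw [h2]
    unfold cut
    rw [sh_coe, sub_zero]
    simp only [E_coe]
    by_cases hm : 0 ≤ m ∧ m < N
    · rw [if_pos hm.1, if_pos hm.2, one_mul]
      rw [Finset.sum_eq_single (⟨m.toNat, by omega⟩ : Fin N.toNat)]
      · simp only [Int.toNat_of_nonneg hm.1]
        simp [hm.1]
      · intro b _ hb
        have : ¬ (0 ≤ (b : ℤ) ∧ m = (b : ℤ)) := by
          rintro ⟨_, h⟩
          apply hb
          apply Fin.ext
          show (b : ℕ) = m.toNat
          omega
        rw [if_neg this, mul_zero]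
      · intro h; exact absurd (Finset.mem_univ _) h
    · rw [Finset.sum_eq_zero]
      · split_ifs with h1 h2
        · exact absurd ⟨h1, h2⟩ hm
        · simp
        · rfl
      · intro b _
        have hb := b.2
        have : ¬ (0 ≤ (b : ℤ) ∧ m = (b : ℤ)) := by omega
        rw [if_neg this, mul_zero]
  rw [h1]
  exact Submodule.sum_mem _ fun k _ => Submodule.smul_mem _ _ (Submodule.subset_span ⟨k, rfl⟩)

/-- criterion for finite rank -/
lemma fr_of_E {T : Ad VS} (N : ℤ) (h : ∀ n : ℤ, N ≤ n → 0 ≤ n → T.1 (E n) = 0) : Fr T := by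
  have h1 : T = T * cut N := by
    refine Ad_ext_E fun n hn => ?_
    rw [mul_apply', cut_E N hn]
    split_ifs with h2
    · rfl
    · rw [h n (by omega) hn, map_zero]
  rw [h1]
  exact (fr_cut N).mul_left _

end Pool.Agent.Helper8.StarReg
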