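import Pool.Agent.Helper8.StarReg.Reduction

/-!
# Regular star subrings of adjointable endomorphisms are images of subrings of products of
endomorphism rings of finite dimensional spaces
-/

set_option autoImplicit false

open scoped InnerProductSpace

namespace Pool.Agent.Helper8.StarReg

section MP

variable {A : Type*} [Ring A] [StarRing A]

/-- `y` is the Moore-Penrose inverse of `a`. -/
def MPrel (a y : A) : Prop :=
  a * y * a = a ∧ y * a * y = y ∧ star (a * y) = a * y ∧ star (y * a) = y * a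

lemma MPrel.star {a y : A} (h : MPrel a y) : MPrel (star a) (star y) := by
  obtain ⟨h1, h2, h3, h4⟩ := h
  refine ⟨?_, ?_, ?_, ?_⟩
  · rw [← star_mul, ← star_mul, ← mul_assoc, h1]
  · rw [← star_mul, ← star_mul, ← mul_assoc, h2]
  · rw [← star_mul, star_star, h4]
  · rw [← star_mul, star_star, h3]

lemma half_MP (hreg : ∀ a : A, ∃ x, a * x * a = a) (hprop : ∀ x : A, Star.star x * x = 0 → x = 0)
    (a : A) : ∃ y, a * y * a = a ∧ Star.star (a * y) = a * y := by
  obtain ⟨b, hbd⟩ : ∃ b, b = Star.star a * a := ⟨_, rfl⟩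
  obtain ⟨x, hx⟩ := hreg b
  have hb : Star.star b = b := by rw [hbd, star_mul, star_star]
  have hx' : b * Star.star x * b = b := by
    have h := congrArg Star.star hx
    rw [star_mul, star_mul, hb, ← mul_assoc] at h
    exact h
  have h1 : a * x * b - a = 0 := by
    apply hprop
    have e1 : Star.star (a * x * b - a) = b * (Star.star x * Star.star a) - Star.star a := by
      rw [star_sub, star_mul, star_mul, hb]
    rw [e1]
    have e2 : (b * (Star.star x * Star.star a) - Star.star a) * (a * x * b - a) =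
        b * Star.star x * (Star.star a * a) * x * b - b * Star.star x * (Star.star a * a) -
        (Star.star a * a) * x * b + Star.star a * a := by noncomm_ring
    rw [e2, ← hbd, hx', hx]; abel
  have h2 : a * x * Star.star a * a = a := by
    rw [mul_assoc, ← hbd]; exact sub_eq_zero.1 h1
  refine ⟨x * Star.star a, ?_, ?_⟩
  · rw [← mul_assoc]; exact h2
  · have h3 : (a * x * Star.star a) * Star.star (a * x * Star.star a) =
        Star.star (a * x * Star.star a) := by
      have e : Star.star (a * x * Star.star a) = a * (Star.star x * Star.star a) := by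
        rw [star_mul, star_mul, star_star]
      rw [e, ← mul_assoc, h2]
    have h4 : Star.star (a * x * Star.star a) = a * x * Star.star a := by
      have h5 := congrArg Star.star h3
      rw [star_mul, star_star] at h5
      rw [← h3]
      exact h5.symm ▸ (by rw [h5] : (a * x * Star.star a) * Star.star (a * x * Star.star a) =
        a * x * Star.star a)
    rw [← mul_assoc]; exact h4

lemma exists_MP (hreg : ∀ a : A, ∃ x, a * x * a = a) (hprop : ∀ x : A, Star.star x * x = 0 → x = 0)
    (a : A) : ∃ y, MPrel a y := by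
  obtain ⟨y0, h0, h0'⟩ := half_MP hreg hprop a
  obtain ⟨z, hz, hz'⟩ := half_MP hreg hprop (Star.star a)
  set y1 := Star.star z with hy1
  have h1 : a * y1 * a = a := by
    have h := congrArg Star.star hz
    rw [star_mul, star_mul, star_star, ← mul_assoc] at h
    exact h
  have h1' : Star.star (y1 * a) = y1 * a := by
    rw [star_mul, hy1, star_star, ← hz', star_mul, star_star]
  refine ⟨y1 * a * y0, ?_, ?_, ?_, ?_⟩
  · rw [← mul_assoc, ← mul_assoc, h1, h0]
  · have e : y1 * a * y0 * a * (y1 * a * y0) = y1 * (a * y0 * a) * y1 * a * y0 := by noncomm_ring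
    rw [e, h0, show y1 * a * y1 * a * y0 = y1 * (a * y1 * a) * y0 by noncomm_ring, h1]
  · rw [← mul_assoc, ← mul_assoc, h1, h0']
  · rw [mul_assoc (y1 * a), mul_assoc y1, ← mul_assoc a, h0, h1']

end MP

variable {V : Type} [NormedAddCommGroup V] [InnerProductSpace ℝ V]

variable (V) in
/-- the finite dimensional subspaces -/
abbrev Ud : Type := {U : Submodule ℝ V // FiniteDimensional ℝ U}

instance (U : Ud V) : FiniteDimensional ℝ U.1 := U.2

variable (V) in
/-- the product of the endomorphism rings of the finite dimensional subspaces -/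
abbrev PE : Type := (U : Ud V) → Module.End ℝ U.1

/-- join -/
def UdSup (U W : Ud V) : Ud V := ⟨U.1 ⊔ W.1, by
  have := U.2
  have := W.2
  infer_instance⟩

lemma P_coe (U : Ud V) (u : U.1) : U.1.orthogonalProjectionOnto (u : V) = u :=
  Submodule.orthogonalProjectionOnto_mem_subspace_eq_self u

/-- eventual pointwise convergence of a net of endomorphisms -/
def Cv (t : PE V) (a : Ad V) : Prop := ∀ v : V, ∃ U0 : Ud V, ∀ U : Ud V, U0.1 ≤ U.1 →
  ((t U (U.1.orthogonalProjectionOnto v) : U.1) : V) = a.1 v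

lemma Cv.unique {t : PE V} {a b : Ad V} (ha : Cv t a) (hb : Cv t b) : a = b := by
  refine Ad_ext fun v => ?_
  obtain ⟨U0, h0⟩ := ha v
  obtain ⟨U1, h1⟩ := hb v
  rw [← h0 (UdSup U0 U1) le_sup_left, ← h1 (UdSup U0 U1) le_sup_right]

lemma Cv.add {t s : PE V} {a b : Ad V} (ha : Cv t a) (hb : Cv s b) : Cv (t + s) (a + b) := by
  intro v
  obtain ⟨U0, h0⟩ := ha v
  obtain ⟨U1, h1⟩ := hb v
  refine ⟨UdSup U0 U1, fun U hU => ?_⟩
  show (((t U (U.1.orthogonalProjectionOnto v) + s U (U.1.orthogonalProjectionOnto v) : U.1)) : V) =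
    a.1 v + b.1 v
  rw [Submodule.coe_add, h0 U (le_sup_left.trans hU), h1 U (le_sup_right.trans hU)]

lemma Cv.mul {t s : PE V} {a b : Ad V} (ha : Cv t a) (hb : Cv s b) : Cv (t * s) (a * b) := by
  intro v
  obtain ⟨U0, h0⟩ := ha (b.1 v)
  obtain ⟨U1, h1⟩ := hb v
  refine ⟨UdSup U0 U1, fun U hU => ?_⟩
  show ((t U (s U (U.1.orthogonalProjectionOnto v)) : U.1) : V) = a.1 (b.1 v)
  rw [← h0 U (le_sup_left.trans hU), ← h1 U (le_sup_right.trans hU), P_coe]

lemma Cv.neg {t : PE V} {a : Ad V} (ha : Cv t a) : Cv (-t) (-a) := by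
  intro v
  obtain ⟨U0, h0⟩ := ha v
  refine ⟨U0, fun U hU => ?_⟩
  show ((-(t U (U.1.orthogonalProjectionOnto v)) : U.1) : V) = -(a.1 v)
  rw [Submodule.coe_neg, h0 U hU]

/-- the span of two vectors -/
def UdSpan2 (v w : V) : Ud V := ⟨Submodule.span ℝ {v, w},
  FiniteDimensional.span_of_finite ℝ (Set.toFinite _)⟩

/-- compression -/
noncomputable def lift (a : Ad V) : PE V := fun U =>
  U.1.orthogonalProjectionOnto.toLinearMap ∘ₗ a.1 ∘ₗ U.1.subtype

lemma Cv_lift (a : Ad V) : Cv (lift a) a := by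
  intro v
  refine ⟨UdSpan2 v (a.1 v), fun U hU => ?_⟩
  have hv : v ∈ U.1 := hU (Submodule.subset_span (by simp))
  have hav : a.1 v ∈ U.1 := hU (Submodule.subset_span (by simp))
  show ((U.1.orthogonalProjectionOnto (a.1 ((U.1.orthogonalProjectionOnto v : U.1) : V)) : U.1) : V)
    = a.1 v
  have e1 : ((U.1.orthogonalProjectionOnto v : U.1) : V) = v := by
    rw [show v = ((⟨v, hv⟩ : U.1) : V) from rfl, P_coe]
  rw [e1]
  rw [show a.1 v = ((⟨a.1 v, hav⟩ : U.1) : V) from rfl, P_coe]

lemma star_lift (a : Ad V) : star (lift a) = lift (star a) := by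
  funext U
  show LinearMap.adjoint (lift a U) = lift (star a) U
  symm
  rw [LinearMap.eq_adjoint_iff]
  intro x y
  show ⟪U.1.orthogonalProjectionOnto ((star a).1 (x : V)), y⟫_ℝ =
    ⟪x, U.1.orthogonalProjectionOnto (a.1 (y : V))⟫_ℝ
  rw [Submodule.inner_orthogonalProjectionOnto_eq_of_mem_right,
    Submodule.inner_orthogonalProjectionOnto_eq_of_mem_left, star_spec, star_star]

lemma Cv_one : Cv (1 : PE V) 1 := by
  intro v
  refine ⟨UdSpan2 v v, fun U hU => ?_⟩
  have hv : v ∈ U.1 := hU (Submodule.subset_span (by simp))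
  show ((U.1.orthogonalProjectionOnto v : U.1) : V) = v
  conv_lhs => rw [show v = ((⟨v, hv⟩ : U.1) : V) from rfl, P_coe]

lemma Cv_zero : Cv (0 : PE V) 0 := by
  intro v
  exact ⟨UdSpan2 v v, fun U hU => rfl⟩

lemma Cv.mp {t y : PE V} {a b : Ad V} (h1 : Cv t a) (h2 : Cv (star t) (star a))
    (hy : ∀ U, MPrel (t U) (y U)) (hb : MPrel a b) : Cv y b := by
  intro v
  obtain ⟨b1, b2, b3, b4⟩ := hb
  set w := b.1 v with hw
  set z := v - a.1 w with hz
  set u := (star b).1 w with hu
  have hz0 : (star a).1 z = 0 := by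
    have e : star a * (a * b) = star a := by
      conv_lhs => rw [← b3, ← star_mul, b1]
    have e2 := congrArg (fun x : Ad V => x.1 v) e
    have e3 : (star a).1 (a.1 (b.1 v)) = (star a).1 v := e2
    rw [hz, map_sub, hw, e3, sub_self]
  have hu0 : (star a).1 u = w := by
    have e : star a * (star b * b) = b := by
      rw [← mul_assoc, ← star_mul, b4, b2]
    have e2 := congrArg (fun x : Ad V => x.1 v) e
    exact e2
  obtain ⟨U1, hU1⟩ := h1 w
  obtain ⟨U2, hU2⟩ := h2 z
  obtain ⟨U3, hU3⟩ := h2 u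
  refine ⟨UdSup (UdSup U1 U2) U3, fun U hU => ?_⟩
  have g1 := hU1 U ((le_sup_left.trans le_sup_left).trans hU)
  have g2 := hU2 U ((le_sup_right.trans le_sup_left).trans hU)
  have g3 := hU3 U (le_sup_right.trans hU)
  obtain ⟨m1, m2, m3, m4⟩ := hy U
  set P := U.1.orthogonalProjectionOnto with hP
  have f1 : P (a.1 w) = t U (P w) := by rw [← g1, hP, P_coe]
  have f2 : (star (t U)) (P z) = 0 := by
    have : ((star (t U)) (P z) : V) = 0 := by
      have g2' : (((star t) U (P z) : U.1) : V) = 0 := by rw [g2, hz0]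
      exact g2'
    exact Subtype.ext this
  have f3 : (star (t U)) (P u) = P w := by
    have g3' : (((star (t U)) (P u) : U.1) : V) = w := by
      have g3'' : (((star t) U (P u) : U.1) : V) = w := by rw [g3, hu0]
      exact g3''
    rw [← g3', hP, P_coe]
  have f3' : ((P w : U.1) : V) = w := by
    rw [← f3]
    have g3'' : (((star t) U (P u) : U.1) : V) = w := by rw [g3, hu0]
    exact g3''
  have f4 : P v = P (a.1 w) + P z := by rw [← map_add, hz]; congr 1; abel
  have f5 : (y U) (P z) = 0 := by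
    have e0 : star (y U) * star (t U) = star (t U * y U) := (star_mul (t U) (y U)).symm
    have e : y U = y U * (star (y U) * star (t U)) := by
      rw [e0, m3, ← mul_assoc, m2]
    rw [e]
    show (y U) ((star (y U)) ((star (t U)) (P z))) = 0
    rw [f2, map_zero, map_zero]
  have f6 : (y U) (t U (P w)) = P w := by
    have e0 : star (y U * t U) * star (t U) = star (t U * (y U * t U)) :=
      (star_mul (t U) (y U * t U)).symm
    have e : (y U * t U) * star (t U) = star (t U) := by
      rw [← m4, e0, ← mul_assoc, m1]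
    have e2 := congrArg (fun x : Module.End ℝ U.1 => x (P u)) e
    have e3 : (y U) ((t U) ((star (t U)) (P u))) = (star (t U)) (P u) := e2
    rw [f3] at e3
    exact e3
  show (((y U) (P v) : U.1) : V) = w
  rw [f4, map_add, f5, f1, f6, add_zero, f3']

lemma End_regular (U : Ud V) (x : Module.End ℝ U.1) : ∃ y, x * y * x = x := by
  obtain ⟨g, hg⟩ := end_unitRegular x
  exact ⟨g.toLinearMap, LinearMap.ext hg⟩

lemma End_proper (U : Ud V) (x : Module.End ℝ U.1) (h : star x * x = 0) : x = 0 := by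
  ext u
  have h1 : ⟪x u, x u⟫_ℝ = 0 := by
    rw [← LinearMap.adjoint_inner_left]
    have h2 : (star x * x) u = 0 := by rw [h]; rfl
    have h3 : LinearMap.adjoint x (x u) = 0 := h2
    rw [h3, inner_zero_left]
  have := inner_self_eq_zero.1 h1
  rw [this]; rfl

/-- A regular star closed subring of the adjointable endomorphisms is a homomorphic image of a
regular star closed subring of the product of the endomorphism rings of all finite dimensional
subspaces. -/
theorem variety (R : Subring (Ad V)) (hstar : ∀ a ∈ R, star a ∈ R)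
    (hreg : ∀ a ∈ R, ∃ x ∈ R, a = a * x * a) :
    ∃ (T : Subring (PE V)) (f : PE V → R),
      (∀ x ∈ T, star x ∈ T) ∧
      (∀ x ∈ T, ∃ y ∈ T, x * y * x = x) ∧
      f 1 = 1 ∧
      (∀ x ∈ T, ∀ y ∈ T, f (x + y) = f x + f y) ∧
      (∀ x ∈ T, ∀ y ∈ T, f (x * y) = f x * f y) ∧
      (∀ x ∈ T, (f (star x)).1 = star (f x).1) ∧
      (∀ r : R, ∃ x ∈ T, f x = r) := by
  classical
  set P : PE V → Ad V → Prop := fun t a => a ∈ R ∧ Cv t a ∧ Cv (star t) (star a) with hP
  have hmul : ∀ {t s a b}, P t a → P s b → P (t * s) (a * b) := by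
    intro t s a b h1 h2
    refine ⟨R.mul_mem h1.1 h2.1, h1.2.1.mul h2.2.1, ?_⟩
    have e : star (t * s) = star s * star t := star_mul t s
    rw [star_mul, e]; exact h2.2.2.mul h1.2.2
  have hadd : ∀ {t s a b}, P t a → P s b → P (t + s) (a + b) := by
    intro t s a b h1 h2
    refine ⟨R.add_mem h1.1 h2.1, h1.2.1.add h2.2.1, ?_⟩
    have e : star (t + s) = star t + star s := star_add t s
    rw [star_add, e]; exact h1.2.2.add h2.2.2
  have hone : P 1 1 := ⟨R.one_mem, Cv_one, by
    have e : star (1 : PE V) = 1 := star_one (PE V)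
    rw [star_one, e]; exact Cv_one⟩
  have hzero : P 0 0 := ⟨R.zero_mem, Cv_zero, by
    have e : star (0 : PE V) = 0 := star_zero (PE V)
    rw [star_zero, e]; exact Cv_zero⟩
  have hneg : ∀ {t a}, P t a → P (-t) (-a) := by
    intro t a h1
    refine ⟨R.neg_mem h1.1, h1.2.1.neg, ?_⟩
    have e : star (-t) = -star t := star_neg t
    rw [star_neg, e]; exact h1.2.2.neg
  have hst : ∀ {t a}, P t a → P (star t) (star a) := by
    intro t a h1
    refine ⟨hstar a h1.1, h1.2.2, ?_⟩
    have e : star (star t) = t := star_star t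
    rw [star_star, e]; exact h1.2.1
  have huniq : ∀ {t a b}, P t a → P t b → a = b := fun h1 h2 => h1.2.1.unique h2.2.1
  set T : Subring (PE V) :=
    { carrier := {t | ∃ a, P t a}
      mul_mem' := fun ⟨a, ha⟩ ⟨b, hb⟩ => ⟨a * b, hmul ha hb⟩
      one_mem' := ⟨1, hone⟩
      add_mem' := fun ⟨a, ha⟩ ⟨b, hb⟩ => ⟨a + b, hadd ha hb⟩
      zero_mem' := ⟨0, hzero⟩
      neg_mem' := fun ⟨a, ha⟩ => ⟨-a, hneg ha⟩ } with hT
  set f : PE V → R := fun t => if h : ∃ a, P t a then ⟨h.choose, h.choose_spec.1⟩ else 0 with hf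
  have hfa : ∀ {t a}, (h : P t a) → f t = ⟨a, h.1⟩ := by
    intro t a h
    have hex : ∃ a, P t a := ⟨a, h⟩
    simp only [hf]
    rw [dif_pos hex]
    exact Subtype.ext (huniq hex.choose_spec h)
  -- star ring structure on R
  let inst : StarRing R := starRingOf R hstar
  have hregR : ∀ a : R, ∃ x : R, a * x * a = a := by
    intro a
    obtain ⟨x, hx, h⟩ := hreg a.1 a.2
    exact ⟨⟨x, hx⟩, Subtype.ext h.symm⟩
  have hpropR : ∀ x : R, star x * x = 0 → x = 0 := by
    intro x hx
    refine Subtype.ext (proper x.1 ?_)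
    exact congrArg Subtype.val hx
  refine ⟨T, f, ?_, ?_, ?_, ?_, ?_, ?_, ?_⟩
  · rintro x ⟨a, ha⟩
    exact ⟨star a, hst ha⟩
  · rintro x ⟨a, ha⟩
    -- Moore-Penrose inverses
    have hU : ∀ U : Ud V, ∃ y, MPrel (x U) y := fun U =>
      exists_MP (End_regular U) (End_proper U) (x U)
    choose y hy using hU
    obtain ⟨b, hb⟩ := exists_MP hregR hpropR (⟨a, ha.1⟩ : R)
    have hb' : MPrel a b.1 := ⟨congrArg Subtype.val hb.1, congrArg Subtype.val hb.2.1,
      congrArg Subtype.val hb.2.2.1, congrArg Subtype.val hb.2.2.2⟩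
    refine ⟨y, ⟨b.1, b.2, ha.2.1.mp ha.2.2 hy hb', ?_⟩, ?_⟩
    · refine Cv.mp (t := star x) (a := star a) ha.2.2 ?_ (fun U => (hy U).star) hb'.star
      have e : star (star x) = x := star_star x
      rw [star_star, e]; exact ha.2.1
    · funext U
      exact (hy U).1
  · rw [hfa hone]; rfl
  · rintro x ⟨a, ha⟩ y ⟨b, hb⟩
    rw [hfa ha, hfa hb, hfa (hadd ha hb)]; rfl
  · rintro x ⟨a, ha⟩ y ⟨b, hb⟩
    rw [hfa ha, hfa hb, hfa (hmul ha hb)]; rfl
  · rintro x ⟨a, ha⟩
    rw [hfa ha, hfa (hst ha)]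
  · intro r
    have h : P (lift r.1) r.1 := ⟨r.2, Cv_lift _, by rw [star_lift]; exact Cv_lift _⟩
    exact ⟨lift r.1, ⟨r.1, h⟩, by rw [hfa h]⟩

instance (U : Ud V) : IsArtinianRing (Module.End ℝ U.1) := IsArtinianRing.of_finite ℝ _

end Pool.Agent.Helper8.StarReg
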