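import Mathlib

/-!
# Hierarchical weights

`hh m b` is the `m`-fold iterated binary logarithm of `b`, `cc m b` the indicator of the residue
class `b ≡ m` modulo `2 ^ Nat.log 2 m`, and `a b = ∑ m, cc m b * hh m b`.
-/

set_option autoImplicit false

open Finset

namespace Pool.Agent.Helper8.StarReg

/-- iterated binary logarithm -/
def hh (m b : ℕ) : ℕ := (Nat.log 2)^[m] b

lemma hh_succ (m b : ℕ) : hh (m + 1) b = hh m (Nat.log 2 b) := rfl

lemma hh_succ' (m b : ℕ) : hh (m + 1) b = Nat.log 2 (hh m b) := by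
  unfold hh; rw [Function.iterate_succ_apply']

lemma hh_zero' (b : ℕ) : hh 0 b = b := rfl

lemma log_mono {x y : ℕ} (h : x ≤ y) : Nat.log 2 x ≤ Nat.log 2 y := Nat.log_mono_right h

lemma hh_mono (m : ℕ) {x y : ℕ} (h : x ≤ y) : hh m x ≤ hh m y := by
  induction m generalizing x y with
  | zero => exact h
  | succ m ih => rw [hh_succ, hh_succ]; exact ih (log_mono h)

lemma two_mul_log_le (y : ℕ) : 2 * Nat.log 2 y ≤ y := by
  rcases Nat.eq_zero_or_pos y with rfl | hy
  · simp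
  have h1 : 2 ^ Nat.log 2 y ≤ y := Nat.pow_log_le_self 2 hy.ne'
  have h2 : ∀ k : ℕ, 2 * k ≤ 2 ^ k := by
    intro k
    induction k with
    | zero => simp
    | succ k ih =>
      rcases Nat.eq_zero_or_pos k with rfl | hk
      · norm_num
      · rw [pow_succ]; omega
  exact (h2 _).trans h1

lemma hh_le_sub (m b : ℕ) : hh m b ≤ b - m := by
  induction m generalizing b with
  | zero => simp [hh]
  | succ m ih =>
    rw [hh_succ]
    refine (ih _).trans ?_
    have := two_mul_log_le b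
    omega

lemma hh_eq_zero {m b : ℕ} (h : b ≤ m) : hh m b = 0 := by
  have := hh_le_sub m b; omega

/-- tail sums of iterated logarithms -/
lemma sum_hh_le (N y : ℕ) : ∑ m ∈ range N, hh m y ≤ 2 * y := by
  induction N generalizing y with
  | zero => simp
  | succ N ih =>
    rw [Finset.sum_range_succ']
    have h1 : ∑ m ∈ range N, hh (m + 1) y = ∑ m ∈ range N, hh m (Nat.log 2 y) := rfl
    rw [h1, hh_zero']
    have h2 := ih (Nat.log 2 y)
    have h3 := two_mul_log_le y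
    omega

lemma log_add_le (x r : ℕ) (h : r ≤ x) : Nat.log 2 (x + r) ≤ Nat.log 2 x + 1 := by
  rcases Nat.eq_zero_or_pos x with rfl | hx
  · have : r = 0 := by omega
    subst this; simp
  · calc Nat.log 2 (x + r) ≤ Nat.log 2 (x * 2) := log_mono (by omega)
      _ = Nat.log 2 x + 1 := Nat.log_mul_base (by norm_num) hx.ne'

lemma hh_add_one_le (m x : ℕ) : hh m (x + 1) ≤ hh m x + 1 := by
  induction m generalizing x with
  | zero => simp [hh]
  | succ m ih =>
    rw [hh_succ, hh_succ]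
    rcases Nat.eq_zero_or_pos x with rfl | hx
    · simp
    · refine (hh_mono m (log_add_le x 1 hx)).trans (ih _)

/-- iterated logarithms vary slowly -/
lemma hh_add_le {m x r : ℕ} (hm : 1 ≤ m) (h : r ≤ x) : hh m (x + r) ≤ hh m x + 1 := by
  obtain ⟨m, rfl⟩ : ∃ k, m = k + 1 := ⟨m - 1, by omega⟩
  rw [hh_succ, hh_succ]
  exact (hh_mono m (log_add_le x r h)).trans (hh_add_one_le m _)

lemma hh_tendsto (m : ℕ) (T : ℕ) : ∃ N, ∀ b, N ≤ b → T ≤ hh m b := by
  induction m generalizing T with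
  | zero => exact ⟨T, fun b hb => hb⟩
  | succ m ih =>
    obtain ⟨N, hN⟩ := ih T
    refine ⟨2 ^ N, fun b hb => ?_⟩
    rw [hh_succ]
    apply hN
    exact Nat.le_log_of_pow_le (by norm_num) hb

lemma sq_le_two_pow (L : ℕ) (h : 4 ≤ L) : L * L ≤ 2 ^ L := by
  induction L, h using Nat.le_induction with
  | base => norm_num
  | succ n hn ih => rw [pow_succ]; nlinarith

lemma mul_log_le (C : ℕ) : ∃ Y, ∀ y, Y ≤ y → C * Nat.log 2 y ≤ y := by
  refine ⟨2 ^ (C + 4), fun y hy => ?_⟩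
  have hy0 : y ≠ 0 := by
    have : 0 < 2 ^ (C + 4) := by positivity
    omega
  have h1 : C + 4 ≤ Nat.log 2 y := Nat.le_log_of_pow_le (by norm_num) hy
  have h2 : 2 ^ Nat.log 2 y ≤ y := Nat.pow_log_le_self 2 hy0
  have h3 := sq_le_two_pow (Nat.log 2 y) (by omega)
  calc C * Nat.log 2 y ≤ Nat.log 2 y * Nat.log 2 y := Nat.mul_le_mul_right _ (by omega)
    _ ≤ _ := h3.trans h2

/-- indicator of the residue class of level `m` -/
def cc (m : ℕ) (b : ℤ) : ℤ := if b ≡ m [ZMOD 2 ^ Nat.log 2 m] then 1 else 0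

lemma cc_nonneg (m : ℕ) (b : ℤ) : 0 ≤ cc m b := by unfold cc; split_ifs <;> norm_num
lemma cc_le_one (m : ℕ) (b : ℤ) : cc m b ≤ 1 := by unfold cc; split_ifs <;> norm_num

/-- the exponents -/
def a (b : ℤ) : ℤ := ∑ m ∈ Icc 1 b.toNat, cc m b * hh m b.toNat

lemma a_eq {b : ℤ} {M : ℕ} (h : b.toNat ≤ M) :
    a b = ∑ m ∈ Icc 1 M, cc m b * hh m b.toNat := by
  unfold a
  refine Finset.sum_subset (Icc_subset_Icc le_rfl h) fun m hm hm' => ?_
  rw [mem_Icc] at hm hm'
  rw [hh_eq_zero (by omega)]; simp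

lemma sum_Icc_hh_le (m1 M y : ℕ) : ∑ m ∈ Ioc m1 M, hh m y ≤ 2 * hh (m1 + 1) y := by
  have h1 : ∑ m ∈ Ioc m1 M, hh m y ≤ ∑ k ∈ range M, hh k (hh (m1 + 1) y) := by
    have h2 : ∑ m ∈ Ioc m1 M, hh m y = ∑ k ∈ range (M - m1), hh (k + (m1 + 1)) y := by
      rw [Finset.range_eq_Ico, Finset.sum_Ico_add' (fun k => hh k y) 0 (M - m1) (m1 + 1)]
      refine Finset.sum_congr ?_ fun _ _ => rfl
      ext k; simp only [mem_Ioc, mem_Ico]; omega
    rw [h2]
    have h3 : ∀ k, hh (k + (m1 + 1)) y = hh k (hh (m1 + 1) y) := by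
      intro k; unfold hh; rw [Function.iterate_add_apply]
    simp only [h3]
    exact Finset.sum_le_sum_of_subset (Finset.range_subset_range.2 (by omega))
  exact h1.trans (sum_hh_le _ _)

lemma a_nonneg (b : ℤ) : 0 ≤ a b :=
  Finset.sum_nonneg fun m _ => mul_nonneg (cc_nonneg _ _) (by positivity)

lemma a_le (b : ℤ) : a b ≤ 2 * Nat.log 2 b.toNat := by
  have h1 : a b ≤ ∑ m ∈ Ioc 0 b.toNat, (hh m b.toNat : ℤ) := by
    unfold a
    have : Icc 1 b.toNat = Ioc 0 b.toNat := by ext; simp; omega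
    rw [this]
    refine Finset.sum_le_sum fun m _ => ?_
    have h2 := cc_le_one m b
    have h3 := cc_nonneg m b
    nlinarith [Int.natCast_nonneg (hh m b.toNat)]
  have h2 := sum_Icc_hh_le 0 b.toNat b.toNat
  rw [hh_succ, hh_zero'] at h2
  have h3 : ((∑ m ∈ Ioc 0 b.toNat, hh m b.toNat : ℕ) : ℤ) ≤ ((2 * Nat.log 2 b.toNat : ℕ) : ℤ) := by
    exact_mod_cast h2
  push_cast at h3
  exact h1.trans h3

/-- the weight functional -/
noncomputable def W (η : ℤ →₀ ℤ) (n : ℤ) : ℤ := η.sum fun d k => k * a (n + d)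

/-- the level `m` degree -/
noncomputable def K (m : ℕ) (η : ℤ →₀ ℤ) (n : ℤ) : ℤ := η.sum fun d k => k * cc m (n + d)

lemma W_add (η η' : ℤ →₀ ℤ) (n : ℤ) : W (η + η') n = W η n + W η' n :=
  Finsupp.sum_add_index' (by simp) (by intros; ring)

lemma K_add (m : ℕ) (η η' : ℤ →₀ ℤ) (n : ℤ) : K m (η + η') n = K m η n + K m η' n :=
  Finsupp.sum_add_index' (by simp) (by intros; ring)

lemma W_neg (η : ℤ →₀ ℤ) (n : ℤ) : W (-η) n = - W η n := by
  unfold W; rw [Finsupp.sum_neg_index (by simp)]; simp [Finsupp.sum, Finset.sum_neg_distrib]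

lemma K_neg (m : ℕ) (η : ℤ →₀ ℤ) (n : ℤ) : K m (-η) n = - K m η n := by
  unfold K; rw [Finsupp.sum_neg_index (by simp)]; simp [Finsupp.sum, Finset.sum_neg_distrib]

lemma W_sub (η η' : ℤ →₀ ℤ) (n : ℤ) : W (η - η') n = W η n - W η' n := by
  rw [sub_eq_add_neg, W_add, W_neg, sub_eq_add_neg]

lemma K_sub (m : ℕ) (η η' : ℤ →₀ ℤ) (n : ℤ) : K m (η - η') n = K m η n - K m η' n := by
  rw [sub_eq_add_neg, K_add, K_neg, sub_eq_add_neg]

/-- The main size estimate: the first nonzero level decides. -/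
lemma asym (η : ℤ →₀ ℤ) (m1 : ℕ) (hm1 : 1 ≤ m1) (T : ℤ) :
    ∃ N : ℤ, ∀ n, N ≤ n → (∀ m, 1 ≤ m → m < m1 → K m η n = 0) → 0 < K m1 η n →
      T ≤ W η n := by
  classical
  -- size of the support
  obtain ⟨r, hr⟩ : ∃ r : ℕ, ∀ d ∈ η.support, -(r : ℤ) ≤ d ∧ d ≤ r := by
    refine ⟨η.support.sup Int.natAbs, fun d hd => ?_⟩
    have := Finset.le_sup (f := Int.natAbs) hd
    omega
  set S : ℕ := ∑ d ∈ η.support, (η d).natAbs with hS
  obtain ⟨Y, hY⟩ := mul_log_le (4 * S)
  obtain ⟨N0, hN0⟩ := hh_tendsto m1 (max Y (2 * (T.toNat + S * m1 + 2 * S)))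
  refine ⟨(N0 + 3 * r + m1 : ℕ), fun n hn hz hpos => ?_⟩
  -- base point
  obtain ⟨x, hx⟩ : ∃ x : ℕ, n = x + r := ⟨(n - r).toNat, by omega⟩
  have hx0 : N0 ≤ x := by omega
  have hx1 : 2 * r ≤ x := by omega
  set M : ℕ := x + 2 * r with hM
  have hnd : ∀ d ∈ η.support, (n + d).toNat ≤ M ∧ x ≤ (n + d).toNat := by
    intro d hd
    have := hr d hd
    omega
  have hW : W η n = ∑ m ∈ Icc 1 M, ∑ d ∈ η.support, η d * (cc m (n + d) * hh m (n + d).toNat) := by
    rw [Finset.sum_comm]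
    unfold W Finsupp.sum
    refine Finset.sum_congr rfl fun d hd => ?_
    show η d * a (n + d) = _
    rw [a_eq (hnd d hd).1, Finset.mul_sum]
  have hsplit : Icc 1 M = Icc 1 m1 ∪ Ioc m1 M := by
    ext k; simp only [mem_Icc, mem_union, mem_Ioc]; omega
  have hdisj : Disjoint (Icc 1 m1) (Ioc m1 M) := by
    rw [Finset.disjoint_left]; intro k; simp only [mem_Icc, mem_Ioc]; omega
  rw [hW, hsplit, Finset.sum_union hdisj]
  -- low levels
  have hhb : ∀ m, 1 ≤ m → ∀ d ∈ η.support,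
      (hh m x : ℤ) ≤ hh m (n + d).toNat ∧ (hh m (n + d).toNat : ℤ) ≤ hh m x + 1 := by
    intro m hm d hd
    obtain ⟨h1, h2⟩ := hnd d hd
    refine ⟨by exact_mod_cast hh_mono m h2, ?_⟩
    have h3 : hh m (n + d).toNat ≤ hh m x + 1 := (hh_mono m h1).trans (hh_add_le hm hx1)
    exact_mod_cast h3
  have habs : ∀ m, 1 ≤ m → |∑ d ∈ η.support, η d * (cc m (n + d) * hh m (n + d).toNat)
      - hh m x * K m η n| ≤ S := by
    intro m hm
    unfold K Finsupp.sum
    rw [Finset.mul_sum, ← Finset.sum_sub_distrib]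
    refine (Finset.abs_sum_le_sum_abs _ _).trans ?_
    rw [hS]; push_cast
    refine Finset.sum_le_sum fun d hd => ?_
    have h1 : η d * (cc m (n + d) * hh m (n + d).toNat) - hh m x * (η d * cc m (n + d)) =
        η d * (cc m (n + d) * ((hh m (n + d).toNat : ℤ) - hh m x)) := by ring
    rw [h1, abs_mul]
    have h2 : |cc m (n + d) * ((hh m (n + d).toNat : ℤ) - hh m x)| ≤ 1 := by
      obtain ⟨h3, h4⟩ := hhb m hm d hd
      have h5 := cc_nonneg m (n + d)
      have h6 := cc_le_one m (n + d)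
      rw [abs_le]; constructor <;> nlinarith
    have h7 : (0 : ℤ) ≤ |η d| := abs_nonneg _
    nlinarith
  have hlow : (hh m1 x : ℤ) - S * m1 ≤
      ∑ m ∈ Icc 1 m1, ∑ d ∈ η.support, η d * (cc m (n + d) * hh m (n + d).toNat) := by
    have h1 : ∀ m ∈ Icc 1 m1, (if m = m1 then (hh m1 x : ℤ) else 0) - S ≤
        ∑ d ∈ η.support, η d * (cc m (n + d) * hh m (n + d).toNat) := by
      intro m hm
      rw [mem_Icc] at hm
      have h2 := abs_le.1 (habs m hm.1)
      split_ifs with h3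
      · subst h3
        have h4 : (hh m x : ℤ) ≤ hh m x * K m η n := by
          have : (0 : ℤ) ≤ hh m x := by positivity
          nlinarith
        linarith [h2.1]
      · rw [hz m hm.1 (by omega), mul_zero] at h2
        linarith [h2.1]
    have h2 := Finset.sum_le_sum h1
    rw [Finset.sum_sub_distrib, Finset.sum_ite_eq' (Icc 1 m1) m1, if_pos (by simp; omega)] at h2
    simp only [sum_const, Nat.card_Icc, nsmul_eq_mul] at h2
    have h3 : ((m1 + 1 - 1 : ℕ) : ℤ) = m1 := by push_cast; simp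
    rw [h3] at h2
    linarith
  have hhigh : -(2 * S * (hh (m1 + 1) x + 1) : ℤ) ≤
      ∑ m ∈ Ioc m1 M, ∑ d ∈ η.support, η d * (cc m (n + d) * hh m (n + d).toNat) := by
    have h1 : ∀ m ∈ Ioc m1 M, -(S * hh m M : ℤ) ≤
        ∑ d ∈ η.support, η d * (cc m (n + d) * hh m (n + d).toNat) := by
      intro m hm
      have h2 : |∑ d ∈ η.support, η d * (cc m (n + d) * hh m (n + d).toNat)| ≤ S * hh m M := by
        refine (Finset.abs_sum_le_sum_abs _ _).trans ?_
        rw [hS]; push_cast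
        rw [Finset.sum_mul]
        refine Finset.sum_le_sum fun d hd => ?_
        rw [abs_mul, ← Int.natCast_natAbs (η d)]
        have h3 : |cc m (n + d) * (hh m (n + d).toNat : ℤ)| ≤ hh m M := by
          have h5 := cc_nonneg m (n + d)
          have h6 := cc_le_one m (n + d)
          have h7 : (hh m (n + d).toNat : ℤ) ≤ hh m M := by
            exact_mod_cast hh_mono m (hnd d hd).1
          have h8 : (0 : ℤ) ≤ hh m (n + d).toNat := by positivity
          rw [abs_of_nonneg (by positivity)]; nlinarith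
        have h7 : (0 : ℤ) ≤ ((η d).natAbs : ℤ) := by positivity
        rw [Int.natCast_natAbs] at *
        exact mul_le_mul_of_nonneg_left h3 (abs_nonneg _)
      exact (abs_le.1 h2).1
    have h2 := Finset.sum_le_sum h1
    refine le_trans ?_ h2
    rw [Finset.sum_neg_distrib, ← Finset.mul_sum]
    have h3 : (∑ m ∈ Ioc m1 M, hh m M : ℕ) ≤ 2 * (hh (m1 + 1) x + 1) :=
      (sum_Icc_hh_le m1 M M).trans (Nat.mul_le_mul_left 2 (hh_add_le (by omega) hx1))
    have h4 : ((∑ m ∈ Ioc m1 M, hh m M : ℕ) : ℤ) ≤ 2 * (hh (m1 + 1) x + 1) := by exact_mod_cast h3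
    push_cast at h4
    have h5 : (0 : ℤ) ≤ S := by positivity
    nlinarith
  -- conclusion
  have hy := hN0 x hx0
  set y := hh m1 x with hydef
  have hlog : hh (m1 + 1) x = Nat.log 2 y := hh_succ' m1 x
  rw [hlog] at hhigh
  have hC := hY y (le_trans (le_max_left _ _) hy)
  have hD : 2 * (T.toNat + S * m1 + 2 * S) ≤ y := le_trans (le_max_right _ _) hy
  have hC' : (4 * S * Nat.log 2 y : ℤ) ≤ y := by exact_mod_cast hC
  have hD' : (2 * (T.toNat + S * m1 + 2 * S) : ℤ) ≤ y := by exact_mod_cast hD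
  have hT : T ≤ T.toNat := Int.self_le_toNat T
  have h9 : T ≤ (y : ℤ) - S * m1 + -(2 * S * (Nat.log 2 y + 1)) := by
    nlinarith
  linarith

lemma asym' (η : ℤ →₀ ℤ) (L : ℕ) (T : ℤ) :
    ∃ N : ℤ, ∀ n, N ≤ n → ∀ m1, 1 ≤ m1 → m1 ≤ L →
      (∀ m, 1 ≤ m → m < m1 → K m η n = 0) → 0 < K m1 η n → T ≤ W η n := by
  induction L with
  | zero => exact ⟨0, fun n _ m1 h1 h2 => by omega⟩
  | succ L ih =>
    obtain ⟨N1, h1⟩ := ih
    obtain ⟨N2, h2⟩ := asym η (L + 1) (by omega) T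
    refine ⟨max N1 N2, fun n hn m1 hm1 hm2 hz hp => ?_⟩
    rcases Nat.lt_or_ge L m1 with h | h
    · obtain rfl : m1 = L + 1 := by omega
      exact h2 n (le_trans (le_max_right _ _) hn) hz hp
    · exact h1 n (le_trans (le_max_left _ _) hn) m1 hm1 h hz hp

/-- cumulated exponents -/
noncomputable def A (n : ℤ) : ℤ := ∑ b ∈ Ico 0 n, a b

lemma a_neg {b : ℤ} (h : b ≤ 0) : a b = 0 := by
  unfold a
  rw [show b.toNat = 0 by omega]; simp

lemma A_succ (n : ℤ) : A (n + 1) = A n + a n := by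
  rcases lt_or_ge n 0 with h | h
  · unfold A
    rw [Finset.Ico_eq_empty (by omega), Finset.Ico_eq_empty (by omega), a_neg h.le]; simp
  · unfold A
    have : Ico 0 (n + 1) = insert n (Ico 0 n) := by
      ext k; simp only [mem_Ico, mem_insert]; omega
    rw [this, Finset.sum_insert (by simp)]; ring

lemma A_neg {n : ℤ} (h : n ≤ 0) : A n = 0 := by
  unfold A; rw [Finset.Ico_eq_empty (by omega)]; simp

/-- signed indicator of the interval from `u` to `v` -/
noncomputable def iv (u v : ℤ) : ℤ →₀ ℤ :=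
  ∑ d ∈ Ico u v, Finsupp.single d 1 - ∑ d ∈ Ico v u, Finsupp.single d 1

lemma W_sum {ι : Type*} (s : Finset ι) (f : ι → ℤ →₀ ℤ) (n : ℤ) :
    W (∑ i ∈ s, f i) n = ∑ i ∈ s, W (f i) n := by
  classical
  induction s using Finset.induction_on with
  | empty => simp [W]
  | insert i s hi ih => rw [Finset.sum_insert hi, Finset.sum_insert hi, W_add, ih]

lemma K_sum {ι : Type*} (m : ℕ) (s : Finset ι) (f : ι → ℤ →₀ ℤ) (n : ℤ) :
    K m (∑ i ∈ s, f i) n = ∑ i ∈ s, K m (f i) n := by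
  classical
  induction s using Finset.induction_on with
  | empty => simp [K]
  | insert i s hi ih => rw [Finset.sum_insert hi, Finset.sum_insert hi, K_add, ih]

lemma W_single (d k n : ℤ) : W (Finsupp.single d k) n = k * a (n + d) := by
  unfold W; rw [Finsupp.sum_single_index (by simp)]

lemma K_single (m : ℕ) (d k n : ℤ) : K m (Finsupp.single d k) n = k * cc m (n + d) := by
  unfold K; rw [Finsupp.sum_single_index (by simp)]

lemma sum_a_Ico (n u : ℤ) (k : ℕ) : ∑ d ∈ Ico u (u + k), a (n + d) = A (n + (u + k)) - A (n + u) := by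
  induction k with
  | zero => simp
  | succ k ih =>
    have : Ico u (u + (k + 1 : ℕ)) = insert (u + k) (Ico u (u + k)) := by
      ext x; simp only [mem_Ico, mem_insert]; push_cast; omega
    rw [this, Finset.sum_insert (by simp), ih]
    have := A_succ (n + (u + k))
    push_cast
    rw [show n + (u + (↑k + 1)) = n + (u + k) + 1 by ring, this]; ring

lemma W_iv (u v n : ℤ) : W (iv u v) n = A (n + v) - A (n + u) := by
  unfold iv
  rw [W_sub, W_sum, W_sum]
  simp only [W_single, one_mul]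
  rcases le_total u v with h | h
  · obtain ⟨k, rfl⟩ : ∃ k : ℕ, v = u + k := ⟨(v - u).toNat, by omega⟩
    rw [sum_a_Ico, Finset.Ico_eq_empty (a := u + (k : ℤ)) (by omega)]; simp
  · obtain ⟨k, rfl⟩ : ∃ k : ℕ, u = v + k := ⟨(u - v).toNat, by omega⟩
    rw [sum_a_Ico, Finset.Ico_eq_empty (a := v + (k : ℤ)) (by omega)]; simp

lemma sum_cc_Ico (m : ℕ) (n u q : ℤ) :
    ∑ d ∈ Ico u (u + 2 ^ Nat.log 2 m * q), cc m (n + d) = max q 0 := by
  set p : ℤ := 2 ^ Nat.log 2 m with hp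
  have hp0 : 0 < p := by positivity
  have h1 : ∀ d, cc m (n + d) = if d ≡ (m - n) [ZMOD p] then 1 else 0 := by
    intro d
    unfold cc
    rw [← hp]
    congr 1
    apply propext
    constructor
    · intro h
      have := h.sub_right n
      simpa using this
    · intro h
      have := h.add_left n
      simpa using this
  simp only [h1]
  rw [Finset.sum_boole]
  have h2 := Int.Ico_filter_modEq_card u (u + p * q) hp0 (m - n)
  have h3 : ((u + p * q : ℤ) - ((m - n : ℤ) : ℚ)) / (p : ℚ) = (u - ((m - n : ℤ) : ℚ)) / p + q := by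
    have : (p : ℚ) ≠ 0 := by exact_mod_cast hp0.ne'
    field_simp; push_cast; ring
  rw [h3, Int.ceil_add_intCast] at h2
  rw [add_sub_cancel_left] at h2
  exact_mod_cast h2

lemma K_iv (m : ℕ) (u v n q : ℤ) (h : v - u = 2 ^ Nat.log 2 m * q) : K m (iv u v) n = q := by
  unfold iv
  rw [K_sub, K_sum, K_sum]
  simp only [K_single, one_mul]
  have h1 := sum_cc_Ico m n u q
  have h2 := sum_cc_Ico m n v (-q)
  rw [← h, show u + (v - u) = v by ring] at h1
  rw [show v + 2 ^ Nat.log 2 m * -q = u by linarith] at h2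
  rw [h1, h2]
  rcases le_total q 0 with h3 | h3
  · rw [max_eq_right h3, max_eq_left (by omega)]; ring
  · rw [max_eq_left h3, max_eq_right (by omega)]; ring

lemma cc_periodic (m : ℕ) (b q : ℤ) : cc m (b + 2 ^ Nat.log 2 m * q) = cc m b := by
  unfold cc
  congr 1
  apply propext
  rw [Int.modEq_iff_dvd, Int.modEq_iff_dvd]
  constructor
  · intro h
    have := dvd_add h (Dvd.intro q rfl)
    rwa [show (m : ℤ) - (b + 2 ^ Nat.log 2 m * q) + 2 ^ Nat.log 2 m * q = m - b by ring] at this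
  · intro h
    have := dvd_sub h (Dvd.intro q rfl)
    rwa [show (m : ℤ) - b - 2 ^ Nat.log 2 m * q = m - (b + 2 ^ Nat.log 2 m * q) by ring] at this

/-- translate of a finitely supported function -/
noncomputable def tr (s : ℤ) (μ : ℤ →₀ ℤ) : ℤ →₀ ℤ := μ.mapDomain (· + s)

lemma W_tr (s : ℤ) (μ : ℤ →₀ ℤ) (n : ℤ) : W (tr s μ) n = W μ (n + s) := by
  unfold W tr
  rw [Finsupp.sum_mapDomain_index (by simp) (by intros; ring)]
  refine Finsupp.sum_congr fun d _ => ?_
  rw [show n + (d + s) = n + s + d by ring]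

lemma K_tr (m : ℕ) (s : ℤ) (μ : ℤ →₀ ℤ) (n : ℤ) : K m (tr s μ) n = K m μ (n + s) := by
  unfold K tr
  rw [Finsupp.sum_mapDomain_index (by simp) (by intros; ring)]
  refine Finsupp.sum_congr fun d _ => ?_
  rw [show n + (d + s) = n + s + d by ring]

lemma K_periodic (m : ℕ) (μ : ℤ →₀ ℤ) (n q : ℤ) :
    K m μ (n + 2 ^ Nat.log 2 m * q) = K m μ n := by
  unfold K
  refine Finsupp.sum_congr fun d _ => ?_
  rw [show n + 2 ^ Nat.log 2 m * q + d = n + d + 2 ^ Nat.log 2 m * q by ring, cc_periodic]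

/-- exponent of the monomial `(μ, i)` at column `n` -/
noncomputable def w (μ : ℤ →₀ ℤ) (i n : ℤ) : ℤ := A (n + i) - A n + 2 * W μ n

/-- column comparison -/
noncomputable def ηc (μ μ' : ℤ →₀ ℤ) (i i' : ℤ) : ℤ →₀ ℤ := iv i' i + ((μ - μ') + (μ - μ'))
/-- row comparison -/
noncomputable def ηr (μ μ' : ℤ →₀ ℤ) (i i' : ℤ) : ℤ →₀ ℤ :=
  iv 0 (i - i') + ((μ - tr (i - i') μ') + (μ - tr (i - i') μ'))

lemma W_ηc (μ μ' : ℤ →₀ ℤ) (i i' n : ℤ) : W (ηc μ μ' i i') n = w μ i n - w μ' i' n := by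
  unfold ηc w
  rw [W_add, W_add, W_iv, W_sub]; ring

lemma W_ηr (μ μ' : ℤ →₀ ℤ) (i i' n : ℤ) :
    W (ηr μ μ' i i') n = w μ i n - w μ' i' (n + (i - i')) := by
  unfold ηr w
  rw [W_add, W_add, W_iv, W_sub, W_tr, show n + (i - i') + i' = n + i by ring, add_zero]; ring

lemma K_ηc (m : ℕ) (μ μ' : ℤ →₀ ℤ) (i i' n q : ℤ) (h : i - i' = 2 ^ Nat.log 2 m * q) :
    K m (ηc μ μ' i i') n = q + 2 * (K m μ n - K m μ' n) := by
  unfold ηc
  rw [K_add, K_add, K_iv m i' i n q h, K_sub]; ring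

lemma K_ηr (m : ℕ) (μ μ' : ℤ →₀ ℤ) (i i' n q : ℤ) (h : i - i' = 2 ^ Nat.log 2 m * q) :
    K m (ηr μ μ' i i') n = q + 2 * (K m μ n - K m μ' n) := by
  unfold ηr
  rw [K_add, K_add, K_iv m 0 (i - i') n q (by rw [sub_zero, h]), K_sub, K_tr, h, K_periodic]; ring

/-- There is a first nonzero level, it is bounded, and up to it row and column agree. -/
lemma level (μ μ' : ℤ →₀ ℤ) (i i' : ℤ) (hne : (μ, i) ≠ (μ', i')) :
    ∃ L : ℕ, ∀ n : ℤ, ∃ m, 1 ≤ m ∧ m ≤ L ∧ K m (ηc μ μ' i i') n ≠ 0 ∧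
      ∀ m', 1 ≤ m' → m' ≤ m → K m' (ηr μ μ' i i') n = K m' (ηc μ μ' i i') n := by
  rcases eq_or_ne i i' with rfl | hi
  · -- same shift
    have hμ : μ - μ' ≠ 0 := by
      intro h; apply hne; rw [sub_eq_zero] at h; rw [h]
    have htr : tr (i - i) μ' = μ' := by
      unfold tr; rw [sub_self]; simp only [add_zero]; exact Finsupp.mapDomain_id
    have hηr : ηr μ μ' i i = ηc μ μ' i i := by
      unfold ηr ηc
      rw [htr]; congr 1
      unfold iv; simp
    obtain ⟨d0, hd0⟩ := Finsupp.ne_iff.1 hμ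
    obtain ⟨r, hr⟩ : ∃ r : ℕ, ∀ d ∈ (μ - μ').support, -(r : ℤ) ≤ d ∧ d ≤ r := by
      refine ⟨(μ - μ').support.sup Int.natAbs, fun d hd => ?_⟩
      have := Finset.le_sup (f := Int.natAbs) hd
      omega
    set j := 2 * r + 1 with hj
    have hj2 : 2 * (r : ℤ) < 2 ^ j := by
      have : 2 * r < 2 ^ j := lt_trans (by omega) (Nat.lt_two_pow_self)
      exact_mod_cast this
    refine ⟨2 ^ (j + 1), fun n => ?_⟩
    -- the level
    set m : ℕ := 2 ^ j + ((n + d0) % 2 ^ j).toNat with hm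
    have hmod0 : 0 ≤ (n + d0) % 2 ^ j := Int.emod_nonneg _ (by positivity)
    have hmod1 : (n + d0) % 2 ^ j < 2 ^ j := Int.emod_lt_of_pos _ (by positivity)
    have hmlt : m < 2 ^ (j + 1) := by
      have : ((n + d0) % 2 ^ j).toNat < 2 ^ j := by
        have h1 : (((n + d0) % 2 ^ j).toNat : ℤ) < ((2 ^ j : ℕ) : ℤ) := by
          rw [Int.toNat_of_nonneg hmod0]; push_cast; exact hmod1
        exact_mod_cast h1
      rw [pow_succ]; omega
    have hlog : Nat.log 2 m = j := by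
      rw [Nat.log_eq_iff (Or.inl (by omega))]
      exact ⟨by omega, hmlt⟩
    refine ⟨m, ?_, hmlt.le, ?_, fun m' _ _ => by rw [hηr]⟩
    · have : 0 < 2 ^ j := by positivity
      omega
    have hcc : ∀ d ∈ (μ - μ').support, cc m (n + d) = if d = d0 then 1 else 0 := by
      intro d hd
      unfold cc
      rw [hlog]
      congr 1
      apply propext
      have hmc : (m : ℤ) ≡ n + d0 [ZMOD 2 ^ j] := by
        rw [hm]; push_cast
        rw [Int.toNat_of_nonneg hmod0]
        have h1 : (2 ^ j + (n + d0) % 2 ^ j : ℤ) ≡ 0 + (n + d0) [ZMOD 2 ^ j] :=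
          Int.ModEq.add (by simp [Int.ModEq]) (Int.mod_modEq _ _)
        simpa using h1
      constructor
      · intro h
        have h1 := h.trans hmc
        rw [Int.modEq_iff_dvd] at h1
        have h2 : n + d0 - (n + d) = d0 - d := by ring
        rw [h2] at h1
        have h3 := hr d hd
        have h4 := hr d0 (by simpa using hd0)
        have h5 := Int.eq_zero_of_abs_lt_dvd h1 (by rw [abs_lt]; constructor <;> linarith)
        omega
      · rintro rfl
        exact hmc.symm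
    have hK : K m (μ - μ') n = (μ - μ') d0 := by
      unfold K Finsupp.sum
      have h1 : ∀ d ∈ (μ - μ').support, (μ - μ') d * cc m (n + d) =
          if d = d0 then (μ - μ') d0 else 0 := by
        intro d hd
        rw [hcc d hd]
        split_ifs with h2
        · rw [h2, mul_one]
        · rw [mul_zero]
      rw [Finset.sum_congr rfl h1, Finset.sum_ite_eq' (μ - μ').support d0, if_pos]
      simpa using hd0
    have h0 : K m (iv i i) n = 0 := K_iv m i i n 0 (by simp)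
    unfold ηc
    rw [K_add, K_add, h0, hK]
    have : (μ - μ') d0 ≠ 0 := by simpa using hd0
    omega
  · -- different shifts
    have hs : i - i' ≠ 0 := sub_ne_zero.2 hi
    obtain ⟨j, q, hq, hjq⟩ : ∃ (j : ℕ) (q : ℤ), Odd q ∧ i - i' = 2 ^ j * q := by
      obtain ⟨k, m, hm, hk⟩ := Nat.exists_eq_two_pow_mul_odd (n := (i - i').natAbs) (by omega)
      rcases Int.natAbs_eq (i - i') with h | h
      · refine ⟨k, m, by exact_mod_cast hm, ?_⟩
        rw [h, hk]; push_cast; ring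
      · refine ⟨k, -m, by simpa using hm, ?_⟩
        rw [h, hk]; push_cast; ring
    have hlev : ∀ m, 1 ≤ m → m ≤ 2 ^ j → ∃ t : ℕ, 2 ^ j = 2 ^ Nat.log 2 m * 2 ^ t := by
      intro m h1 h2
      have h3 : Nat.log 2 m ≤ j := by
        have := log_mono h2
        rwa [Nat.log_pow (by norm_num)] at this
      exact ⟨j - Nat.log 2 m, by rw [← pow_add]; congr 1; omega⟩
    refine ⟨2 ^ j, fun n => ⟨2 ^ j, Nat.one_le_two_pow, le_rfl, ?_, fun m' h1 h2 => ?_⟩⟩
    · have hlog : Nat.log 2 (2 ^ j) = j := Nat.log_pow (by norm_num) j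
      rw [K_ηc (2 ^ j) μ μ' i i' n q (by rw [hlog]; exact hjq)]
      obtain ⟨t, rfl⟩ := hq
      omega
    · obtain ⟨t, ht⟩ := hlev m' h1 h2
      have h3 : i - i' = 2 ^ Nat.log 2 m' * (2 ^ t * q) := by
        rw [hjq, ← mul_assoc]; congr 1; exact_mod_cast ht
      rw [K_ηc m' μ μ' i i' n _ h3, K_ηr m' μ μ' i i' n _ h3]

/-- KEY LEMMA -/
theorem key (μ μ' : ℤ →₀ ℤ) (i i' : ℤ) (hne : (μ, i) ≠ (μ', i')) (T : ℤ) :
    ∃ N : ℤ, ∀ n, N ≤ n →
      (w μ' i' n + T ≤ w μ i n ∧ w μ' i' (n + (i - i')) + T ≤ w μ i n) ∨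
      (w μ i n + T ≤ w μ' i' n ∧ w μ i n + T ≤ w μ' i' (n + (i - i'))) := by
  obtain ⟨L, hL⟩ := level μ μ' i i' hne
  obtain ⟨N1, h1⟩ := asym' (ηc μ μ' i i') L T
  obtain ⟨N2, h2⟩ := asym' (-ηc μ μ' i i') L T
  obtain ⟨N3, h3⟩ := asym' (ηr μ μ' i i') L T
  obtain ⟨N4, h4⟩ := asym' (-ηr μ μ' i i') L T
  refine ⟨max (max N1 N2) (max N3 N4), fun n hn => ?_⟩
  have hn1 : N1 ≤ n := le_trans (le_trans (le_max_left _ _) (le_max_left _ _)) hn
  have hn2 : N2 ≤ n := le_trans (le_trans (le_max_right _ _) (le_max_left _ _)) hn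
  have hn3 : N3 ≤ n := le_trans (le_trans (le_max_left _ _) (le_max_right _ _)) hn
  have hn4 : N4 ≤ n := le_trans (le_trans (le_max_right _ _) (le_max_right _ _)) hn
  obtain ⟨m0, hm0, hm0L, hm0K, hagree⟩ := hL n
  classical
  have hex : ∃ m, 1 ≤ m ∧ K m (ηc μ μ' i i') n ≠ 0 := ⟨m0, hm0, hm0K⟩
  set m1 := Nat.find hex with hm1
  have hspec := Nat.find_spec hex
  rw [← hm1] at hspec
  have hmin : ∀ m, 1 ≤ m → m < m1 → K m (ηc μ μ' i i') n = 0 := by
    intro m h1 h2
    have := Nat.find_min hex h2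
    by_contra h
    exact this ⟨h1, h⟩
  have hm1m0 : m1 ≤ m0 := Nat.find_min' hex ⟨hm0, hm0K⟩
  have hmin' : ∀ m, 1 ≤ m → m < m1 → K m (ηr μ μ' i i') n = 0 := by
    intro m h1 h2
    rw [hagree m h1 (by omega)]; exact hmin m h1 h2
  have hm1' : K m1 (ηr μ μ' i i') n = K m1 (ηc μ μ' i i') n := hagree m1 hspec.1 hm1m0
  rcases lt_or_gt_of_ne hspec.2 with hneg | hpos
  · right
    have e2 := h2 n hn2 m1 hspec.1 (by omega) (fun m a b => by rw [K_neg, hmin m a b]; rfl)
      (by rw [K_neg]; omega)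
    have e4 := h4 n hn4 m1 hspec.1 (by omega) (fun m a b => by rw [K_neg, hmin' m a b]; rfl)
      (by rw [K_neg, hm1']; omega)
    rw [W_neg, W_ηc] at e2
    rw [W_neg, W_ηr] at e4
    constructor <;> linarith
  · left
    have e1 := h1 n hn1 m1 hspec.1 (by omega) hmin hpos
    have e3 := h3 n hn3 m1 hspec.1 (by omega) hmin' (by rw [hm1']; exact hpos)
    rw [W_ηc] at e1
    rw [W_ηr] at e3
    constructor <;> linarith

end Pool.Agent.Helper8.StarReg
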